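import Pool.Agent.VGV.Defs

/-! Module Base: cycles with support in a base locus, defined over a purely transcendental extension
of the field of the base locus, are constant modulo rational equivalence. -/

set_option autoImplicit false

open scoped LinearAlgebra.Projectivization
open MvPolynomial

namespace Pool.Agent.VGS.W

open Pool.Agent.Chow0 (IsChowForm IsLink)
open Pool.Agent.LowDeg (surf)

variable {F : MvPolynomial (Fin 4) ℂ} {d : ℕ} {ι : Type} {g : ι → MvPolynomial (Fin 4) ℂ}

/-- the common zeros of the forms `g i` -/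
def Zer (g : ι → MvPolynomial (Fin 4) ℂ) : Set PP := {q | ∀ i, aeval q.rep (g i) = 0}

theorem zer_act {L : Fl} (hg : ∀ i, (g i).IsHomogeneous d) (hgL : ∀ i, Coef L (g i))
    {σ : ℂ ≃+* ℂ} (hσ : σ ∈ Fix L) {q : PP} (hq : q ∈ Zer g) : act σ q ∈ Zer g := fun i =>
  (act_mem_surf (hg i) (hgL i) hσ).2 (hq i)

theorem zer_spP {C : Fl} (hg : ∀ i, (g i).IsHomogeneous d) (hgC : ∀ i, Coef C (g i))
    {V : ValuationSubring ℂ} (hV : IsPl V C) {p q : PP} (h : SpP V C p q) (hp : p ∈ Zer g) :
    q ∈ Zer g := fun i => SpP.mem_surf hV (hg i) (hgC i) h (hp i)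

/-- The specialisation of the last letter: the family is the family of the values of the letter. -/
theorem base_link {E : Fl} [Countable E] {e : ℂ} (he : e ∉ clo E) {S : Multiset PP}
    (hS : IsFam E e S) (hg : ∀ i, (g i).IsHomogeneous d) (hgE : ∀ i, Coef E (g i))
    (hgF : ∀ q ∈ Zer g, q ∈ surf F) (hSZ : ∀ p ∈ S, p ∈ Zer g) {V : ValuationSubring ℂ}
    (hV : IsPl V (clo E)) (h₀ : Sp V (clo E) e 0) {f : PP → PP}
    (hf : ∀ p ∈ S, SpP V (clo E) p (f p)) : cycQ (S.map f) - cycQ S ∈ ratQ F := by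
  obtain ⟨Φ, -, hΦ, hΦ'⟩ := exists_chow E he hS
  have hgC : ∀ i, Coef (clo E) (g i) := fun i => (hgE i).mono (le_clo E)
  obtain ⟨s₀, hs₀⟩ : ∃ s : Multiset (surf F), s.map Subtype.val = S.map f := by
    have hfF : ∀ p ∈ S.map f, p ∈ surf F := by
      intro q hq
      obtain ⟨p, hp, rfl⟩ := Multiset.mem_map.1 hq
      exact hgF _ (zer_spP hg hgC hV (hf p hp) (hSZ p hp))
    lift S.map f to Multiset (surf F) using hfF with s
    exact ⟨s, rfl⟩
  obtain ⟨s₁, hs₁⟩ : ∃ s : Multiset (surf F), s.map Subtype.val = S := by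
    have hSF : ∀ p ∈ S, p ∈ surf F := fun p hp => hgF _ (hSZ p hp)
    lift S to Multiset (surf F) using hSF with s
    exact ⟨s, rfl⟩
  have hev : ∀ t : ℂ, (Φ.comp (Polynomial.C (C e) * Polynomial.X)).eval (C t) =
      Φ.eval (C (e * t)) := by
    intro t
    rw [Polynomial.eval_comp, Polynomial.eval_mul, Polynomial.eval_C, Polynomial.eval_X, map_mul]
  refine Submodule.subset_span ⟨s₀, s₁, ⟨Φ.comp (Polynomial.C (C e) * Polynomial.X), ?_, ?_, ?_⟩,
    by rw [hs₀, hs₁]⟩
  · refine Filter.Eventually.of_forall fun t => ?_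
    rw [hev]
    have key : ∃ s : Multiset PP, (∀ p ∈ s, p ∈ surf F) ∧ IsCh (Φ.eval (C (e * t))) s := by
      by_cases ht : e * t ∈ clo E
      · obtain ⟨V', hV', hut⟩ := exists_place (clo_clo E) he ht
        have hex : ∀ p ∈ S, ∃ q, SpP V' (clo E) p q := fun p hp =>
          exists_spP (clo_clo E) hV' he hut (Over.mono (hS.isOver p hp)
            (clo_mono (adj_le ((le_clo E).trans (le_adj _ _)) (subset_adj _ _))))
        choose! k hk using hex
        refine ⟨S.map k, ?_, hΦ V' hV' _ ht hut k hk⟩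
        intro q hq
        obtain ⟨p, hp, rfl⟩ := Multiset.mem_map.1 hq
        exact hgF _ (zer_spP hg hgC hV' (hk p hp) (hSZ p hp))
      · obtain ⟨τ, hτ, hτu⟩ := exists_extend (clo E) (clo_clo E) 1 (fun x => Iff.rfl) he ht
        have hτE : τ ∈ Fix E := fun x hx => hτ x (le_clo E hx)
        refine ⟨S.map (act τ), ?_, hτu ▸ hΦ' τ hτE⟩
        intro q hq
        obtain ⟨p, hp, rfl⟩ := Multiset.mem_map.1 hq
        exact hgF _ (zer_act hg hgE hτE (hSZ p hp))
    obtain ⟨s, hs, hs'⟩ := key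
    obtain ⟨s', rfl⟩ : ∃ s' : Multiset (surf F), s'.map Subtype.val = s := by
      lift s to Multiset (surf F) using hs with s'
      exact ⟨s', rfl⟩
    exact ⟨s', hs'⟩
  · rw [hev, mul_zero]
    have := hΦ V hV 0 h₀.1 h₀ f hf
    rw [← hs₀] at this
    exact this
  · rw [hev, mul_one]
    have := hΦ' 1 (one_mem _)
    have h1 : S.map (act 1) = S := by
      rw [show (act 1 : PP → PP) = id from funext act_one, Multiset.map_id]
    rw [h1, ← hs₁] at this
    exact this

/-- One letter less. -/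
theorem base_step (E : Fl) [Countable E] {e : ℂ} (he : e ∉ clo E)
    (hg : ∀ i, (g i).IsHomogeneous d) (hgE : ∀ i, Coef E (g i))
    (hgF : ∀ q ∈ Zer g, q ∈ surf F) {y : Cy}
    (hy : ∀ q ∈ y.support, q ∈ Zer g ∧ Over (clo (adj E {e})) q)
    (hst : ∀ σ ∈ Fix (adj E {e}), actC σ y = y) :
    ∃ y' : Cy, (∀ q ∈ y'.support, q ∈ Zer g ∧ Over (clo E) q) ∧
      (∀ σ ∈ Fix E, actC σ y' = y') ∧ y - y' ∈ ratQ F := by
  classical
  have hgC : ∀ i, Coef (clo E) (g i) := fun i => (hgE i).mono (le_clo E)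
  -- the cycles for which the statement holds
  let W : Submodule ℚ Cy :=
    { carrier := {y | ∃ y' : Cy, (∀ q ∈ y'.support, q ∈ Zer g ∧ Over (clo E) q) ∧
        (∀ σ ∈ Fix E, actC σ y' = y') ∧ y - y' ∈ ratQ F}
      zero_mem' := ⟨0, by simp, by simp, by simp⟩
      add_mem' := by
        rintro a b ⟨a', ha1, ha2, ha3⟩ ⟨b', hb1, hb2, hb3⟩
        refine ⟨a' + b', ?_, ?_, ?_⟩
        · intro q hq
          rcases Finset.mem_union.1 (Finsupp.support_add hq) with h | h
          · exact ha1 q h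
          · exact hb1 q h
        · intro σ hσ
          rw [map_add, ha2 σ hσ, hb2 σ hσ]
        · have h1 := (ratQ F).add_mem ha3 hb3
          rwa [add_sub_add_comm]
      smul_mem' := by
        rintro c a ⟨a', ha1, ha2, ha3⟩
        refine ⟨c • a', ?_, ?_, ?_⟩
        · intro q hq
          exact ha1 q (Finsupp.support_smul hq)
        · intro σ hσ
          rw [map_smul, ha2 σ hσ]
        · have h1 := (ratQ F).smul_mem c ha3
          rwa [← smul_sub] }
  have hW : y ∈ W := by
    refine (Submodule.span_le.2 ?_) (mem_span_orb (adj E {e}) y hst fun q hq => (hy q hq).2)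
    rintro _ ⟨q, hq, rfl⟩
    obtain ⟨hqZ, hqO⟩ := hy q hq
    have hfin := finite_orbit_pt (adj E {e}) hqO
    set S : Multiset PP := hfin.toFinset.val with hSdef
    have hSnd : S.Nodup := hfin.toFinset.nodup
    have hSmem : ∀ q', q' ∈ S ↔ ∃ σ ∈ Fix (adj E {e}), act σ q = q' := fun q' => by
      rw [hSdef, Finset.mem_val, Set.Finite.mem_toFinset]
      rfl
    have hS : IsFam E e S := by
      refine ⟨fun q' hq' => ?_, fun σ hσ => ?_⟩
      · obtain ⟨σ, hσ, rfl⟩ := (hSmem q').1 hq'
        exact (over_clo_act hσ).2 hqO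
      · refine (Multiset.Nodup.ext (hSnd.map (act_injective σ)) hSnd).2 fun q' => ?_
        rw [Multiset.mem_map]
        constructor
        · rintro ⟨q'', hq'', rfl⟩
          obtain ⟨τ, hτ, rfl⟩ := (hSmem q'').1 hq''
          exact (hSmem _).2 ⟨σ * τ, (Fix _).mul_mem hσ hτ, by rw [act_mul]⟩
        · intro hq'
          obtain ⟨τ, hτ, rfl⟩ := (hSmem q').1 hq'
          refine ⟨act (σ⁻¹ * τ) q, (hSmem _).2
            ⟨_, (Fix _).mul_mem ((Fix _).inv_mem hσ) hτ, rfl⟩, ?_⟩
          rw [← act_mul, mul_inv_cancel_left]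
    have hSZ : ∀ p ∈ S, p ∈ Zer g := fun p hp => by
      obtain ⟨σ, hσ, rfl⟩ := (hSmem p).1 hp
      exact zer_act hg hgE (Fix_mono (le_adj _ _) hσ) hqZ
    have hOrb : Orb (adj E {e}) q = cycQ S := by
      ext q'
      unfold Orb
      rw [asm_sumSet_apply hfin, cycQ_apply]
      by_cases h : q' ∈ S
      · have h' : q' ∈ {q' | ∃ σ ∈ Fix (adj E {e}), act σ q = q'} := (hSmem q').1 h
        rw [if_pos h', Multiset.count_eq_one_of_mem hSnd h, Nat.cast_one]
      · have h' : q' ∉ {q' | ∃ σ ∈ Fix (adj E {e}), act σ q = q'} := fun h' =>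
          h ((hSmem q').2 h')
        rw [if_neg h', Multiset.count_eq_zero_of_notMem h, Nat.cast_zero]
    obtain ⟨V, hV, hV0⟩ := exists_place (clo_clo E) he (zero_mem (clo E))
    have hex : ∀ p ∈ S, ∃ q, SpP V (clo E) p q := fun p hp =>
      exists_spP (clo_clo E) hV he hV0 (Over.mono (hS.isOver p hp)
        (clo_mono (adj_le ((le_clo E).trans (le_adj _ _)) (subset_adj _ _))))
    choose! f hf using hex
    have h1 := base_link he hS hg hgE hgF hSZ hV hV0 hf
    refine ⟨cycQ (S.map f), ?_, ?_, ?_⟩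
    · intro q' hq'
      have h2 : q' ∈ S.map f := by
        rw [Finsupp.mem_support_iff, cycQ_apply] at hq'
        by_contra h
        exact hq' (by rw [Multiset.count_eq_zero_of_notMem h]; rfl)
      obtain ⟨p, hp, rfl⟩ := Multiset.mem_map.1 h2
      exact ⟨zer_spP hg hgC hV (hf p hp) (hSZ p hp), (hf p hp).over⟩
    · intro σ hσ
      rw [actC_cycQ, stable_ms he hS (zero_mem E) hV hV0 hf hσ]
    · rw [hOrb, ← neg_sub]
      exact (ratQ F).neg_mem h1
  exact hW

/-- **Cycles on the base locus**: a cycle which is stable over the purely transcendental extension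
`k(e)` is constant modulo rational equivalence. -/
theorem base_const (k : Fl) [Countable k] (hg : ∀ i, (g i).IsHomogeneous d)
    (hgk : ∀ i, Coef k (g i)) (hgF : ∀ q ∈ Zer g, q ∈ surf F) {n : ℕ} (e : Fin n → ℂ)
    (he : AlgebraicIndependent k e) {y : Cy}
    (hy : ∀ q ∈ y.support, q ∈ Zer g ∧ Over (clo (adj k (Set.range e))) q)
    (hst : ∀ σ ∈ Fix (adj k (Set.range e)), actC σ y = y) :
    ∃ y' : Cy, (∀ q ∈ y'.support, q ∈ Zer g ∧ Over (clo k) q) ∧
      (∀ σ ∈ Fix k, actC σ y' = y') ∧ y - y' ∈ ratQ F := by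
  induction n generalizing y with
  | zero =>
    have h0 : adj k (Set.range e) = k := by
      rw [Set.range_eq_empty, adj, IntermediateField.adjoin_empty, sup_bot_eq]
    rw [h0] at hy hst
    exact ⟨y, hy, hst, by rw [sub_self]; exact zero_mem _⟩
  | succ n ih =>
    set e' : Fin n → ℂ := fun i => e i.castSucc with he'
    have hc : Countable (Set.range e') := (Set.countable_range _).to_subtype
    have hr : adj (adj k (Set.range e')) {e (Fin.last n)} = adj k (Set.range e) := by
      rw [adj_adj]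
      congr 1
      ext x
      constructor
      · rintro (⟨i, rfl⟩ | h)
        · exact ⟨i.castSucc, rfl⟩
        · exact ⟨Fin.last n, (Set.mem_singleton_iff.1 h).symm⟩
      · rintro ⟨i, rfl⟩
        refine Fin.lastCases ?_ (fun i => ?_) i
        · exact Or.inr rfl
        · exact Or.inl ⟨i, rfl⟩
    have hlast : e (Fin.last n) ∉ clo (adj k (Set.range e')) := by
      have h1 := he.transcendental_adjoin (s := {Fin.last n}ᶜ) (i := Fin.last n) (by simp)
      intro h2
      apply h1
      rw [← mem_clo_adj]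
      refine clo_mono (adj_le (le_adj _ _) ?_) h2
      rintro _ ⟨i, rfl⟩
      exact subset_adj _ _ ⟨i.castSucc, by simp, rfl⟩
    rw [← hr] at hy hst
    obtain ⟨y₁, h1, h2, h3⟩ := base_step (adj k (Set.range e')) hlast hg
      (fun i => (hgk i).mono (le_adj _ _)) hgF hy hst
    obtain ⟨y₂, h4, h5, h6⟩ := ih e' (he.comp _ (Fin.castSucc_injective n)) h1 h2
    refine ⟨y₂, h4, h5, ?_⟩
    have h7 := (ratQ F).add_mem h3 h6
    rwa [sub_add_sub_cancel] at h7

end Pool.Agent.VGS.W
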