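import Pool.Agent.VGW.Base

/-! Very general members of a linear system of surfaces in `ℙ³` with a base locus: definitions. -/

set_option autoImplicit false

open scoped LinearAlgebra.Projectivization
open MvPolynomial

namespace Pool.Agent.VGS.W

open Pool.Agent.LowDeg (surf IsSmoothForm)

/-- The fibre through `z` of the map defined by the forms `g i` off their common zeros. -/
def Fib {ι : Type} (g : ι → MvPolynomial (Fin 4) ℂ) (z : Fin 4 → ℂ) : Set PP :=
  {q | (∃ i, aeval q.rep (g i) ≠ 0) ∧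
    ∀ i j, aeval q.rep (g i) * aeval z (g j) = aeval q.rep (g j) * aeval z (g i)}

/-- The forms of degree `n` separate the points of the fibre through `z`: for every point of the
fibre some form of degree `n` vanishes at all other points of the fibre and not at this point. -/
def Sep {ι : Type} (g : ι → MvPolynomial (Fin 4) ℂ) (n : ℕ) (z : Fin 4 → ℂ) : Prop :=
  ∀ q ∈ Fib g z, ∃ f : MvPolynomial (Fin 4) ℂ, f.IsHomogeneous n ∧ aeval q.rep f ≠ 0 ∧
    ∀ q' ∈ Fib g z, q' ≠ q → aeval q'.rep f = 0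

/-- The sum of the points of the surface `F = 0` on the line `x₀ = x₁ = 0` and not in `Z`. -/
noncomputable def hL (Z : Set PP) (F : MvPolynomial (Fin 4) ℂ) : Cy :=
  sumSet {q | q ∈ surf F ∧ q ∉ Z ∧ q.rep 0 = 0 ∧ q.rep 1 = 0}

/-- `F = ∑ a_i s_i` with forms `s_i` over `κ`, the `a_i` independent over `κ`; the common zeros of
the `s_i` not in `Z` are not on the plane `x₀ = 0`. -/
structure SetR {ι : Type} [Fintype ι] (κ : Fl) (s : ι → MvPolynomial (Fin 4) ℂ) (a : ι → ℂ)
    (F : MvPolynomial (Fin 4) ℂ) (d : ℕ) (Z : Set PP) : Prop where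
  smooth : IsSmoothForm F d
  hom : ∀ i, (s i).IsHomogeneous d
  coef : ∀ i, Coef κ (s i)
  ind : AlgebraicIndependent κ a
  sum : F = ∑ i, C (a i) * s i
  stab : ∀ σ ∈ Fix κ, ∀ q ∈ Z, act σ q ∈ Z
  base : ∀ q : PP, q ∉ Z → (∀ i, aeval q.rep (s i) = 0) → q.rep 0 ≠ 0

end Pool.Agent.VGS.W
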