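import Pool.Agent.VGW.Defs

/-! Module Fibre: the fibres of the linear system off the base locus. -/

set_option autoImplicit false

open scoped LinearAlgebra.Projectivization
open MvPolynomial

namespace Pool.Agent.VGS.W

open Pool.Agent.LowDeg (surf IsSmoothForm)

variable {ι : Type} {g : ι → MvPolynomial (Fin 4) ℂ} {d : ℕ}

/-- the forms `f` of `Sep` are linearly independent -/
theorem fib_finite {n : ℕ} {z : Fin 4 → ℂ} (h : Sep g n z) : (Fib g z).Finite := by
  classical
  choose! f hf h0 h1 using h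
  set T : Finset (Fin 4 →₀ ℕ) := Finset.finsuppAntidiag Finset.univ n with hT
  set S : Finset (MvPolynomial (Fin 4) ℂ) := T.image fun m => monomial m (1 : ℂ) with hS
  set E : Submodule ℂ (MvPolynomial (Fin 4) ℂ) :=
    Submodule.span ℂ (S : Set (MvPolynomial (Fin 4) ℂ)) with hE
  have hfin : FiniteDimensional ℂ E := FiniteDimensional.span_finset ℂ S
  have hmem : ∀ q ∈ Fib g z, f q ∈ E := by
    intro q hq
    rw [(f q).as_sum]
    refine Submodule.sum_mem _ fun m hm => ?_
    have h2 : m.degree = n := by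
      by_contra h3
      exact (mem_support_iff.1 hm) ((hf q hq).coeff_eq_zero h3)
    have h3 : monomial m (coeff m (f q)) = coeff m (f q) • monomial m (1 : ℂ) := by
      rw [smul_monomial, smul_eq_mul, mul_one]
    rw [h3]
    refine Submodule.smul_mem _ _ (Submodule.subset_span ?_)
    rw [hS, Finset.mem_coe, Finset.mem_image]
    refine ⟨m, ?_, rfl⟩
    rw [hT, Finset.mem_finsuppAntidiag]
    refine ⟨?_, Finset.subset_univ _⟩
    rw [← h2, Finsupp.degree_eq_sum]
  let G : Fib g z → E := fun q => ⟨f q.1, hmem q.1 q.2⟩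
  have hli : LinearIndependent ℂ G := by
    rw [linearIndependent_iff']
    intro s c hc q hq
    have h2 := congrArg (fun x : E => aeval q.1.rep (x : MvPolynomial (Fin 4) ℂ)) hc
    have h3 : (((∑ i ∈ s, c i • G i : E)) : MvPolynomial (Fin 4) ℂ) = ∑ i ∈ s, c i • f i.1 := by
      rw [Submodule.coe_sum]
      rfl
    beta_reduce at h2
    rw [h3, map_sum, Finset.sum_eq_single q] at h2
    · rw [map_smul, Submodule.coe_zero, map_zero, smul_eq_mul, mul_eq_zero] at h2
      exact h2.resolve_right (h0 q.1 q.2)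
    · intro i _ hi
      rw [map_smul, h1 i.1 i.2 q.1 q.2 (fun h => hi (Subtype.ext h.symm)), smul_zero]
    · intro h
      exact absurd hq h
  have h4 : Finite (Fib g z) := hli.finite
  exact Set.toFinite _

/-- `Fib g` depends only on the point -/
theorem fib_smul (hg : ∀ i, (g i).IsHomogeneous d) {c : ℂ} (hc : c ≠ 0) (z : Fin 4 → ℂ) :
    Fib g (fun i => c * z i) = Fib g z := by
  have h1 : ∀ i, aeval (fun i => c * z i) (g i) = c ^ d * aeval z (g i) := fun i =>
    aeval_scale (hg i) fun _ => rfl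
  ext q
  refine and_congr Iff.rfl (forall_congr' fun i => forall_congr' fun j => ?_)
  rw [h1, h1]
  constructor
  · intro h
    apply mul_left_cancel₀ (pow_ne_zero d hc)
    linear_combination h
  · intro h
    linear_combination c ^ d * h

/-- membership in coordinates -/
theorem mem_fib_mk (hg : ∀ i, (g i).IsHomogeneous d) {z y : Fin 4 → ℂ} (hy : y ≠ 0) :
    Projectivization.mk ℂ y hy ∈ Fib g z ↔ (∃ i, aeval y (g i) ≠ 0) ∧
      ∀ i j, aeval y (g i) * aeval z (g j) = aeval y (g j) * aeval z (g i) := by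
  obtain ⟨a, ha⟩ := Projectivization.exists_smul_eq_mk_rep ℂ y hy
  have h1 : ∀ i, (Projectivization.mk ℂ y hy : PP).rep i = (a : ℂ) * y i := by
    intro i
    rw [← ha]
    rfl
  have h2 : ∀ i, aeval (Projectivization.mk ℂ y hy : PP).rep (g i) =
      (a : ℂ) ^ d * aeval y (g i) := fun i => aeval_scale (hg i) h1
  refine and_congr (exists_congr fun i => ?_) (forall_congr' fun i => forall_congr' fun j => ?_)
  · rw [h2, Ne, mul_eq_zero, not_or]
    exact ⟨fun h => h.2, fun h => ⟨pow_ne_zero d a.ne_zero, h⟩⟩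
  rw [h2, h2]
  constructor
  · intro h
    apply mul_left_cancel₀ (pow_ne_zero d a.ne_zero)
    linear_combination h
  · intro h
    linear_combination (a : ℂ) ^ d * h

/-- field automorphisms act on the fibres -/
theorem act_mem_fib (hg : ∀ i, (g i).IsHomogeneous d) {k : Fl} (hgk : ∀ i, Coef k (g i))
    {σ : ℂ ≃+* ℂ} (hσ : σ ∈ Fix k) {z : Fin 4 → ℂ} {q : PP} (hq : q ∈ Fib g z) :
    act σ q ∈ Fib g (fun i => σ (z i)) := by
  have h1 : act σ q = Projectivization.mk ℂ (fun i => σ (q.rep i)) (map_ne_zero' σ q.rep_nonzero) :=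
    rfl
  rw [h1, mem_fib_mk hg]
  obtain ⟨i, hi⟩ := hq.1
  refine ⟨⟨i, ?_⟩, fun i j => ?_⟩
  · rw [aeval_fix (hgk i) hσ]
    exact fun h => hi ((map_eq_zero_iff σ σ.injective).1 h)
  rw [aeval_fix (hgk i) hσ, aeval_fix (hgk j) hσ, aeval_fix (hgk i) hσ, aeval_fix (hgk j) hσ,
    ← map_mul, ← map_mul, hq.2 i j]

private theorem sep_act (hg : ∀ i, (g i).IsHomogeneous d) {k : Fl} (hgk : ∀ i, Coef k (g i))
    {n : ℕ} {σ : ℂ ≃+* ℂ} (hσ : σ ∈ Fix k) {z : Fin 4 → ℂ} (h : Sep g n z) :
    Sep g n (fun i => σ (z i)) := by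
  have hinv : σ⁻¹ ∈ Fix k := (Fix k).inv_mem hσ
  have hback : ∀ q ∈ Fib g (fun i => σ (z i)), act σ⁻¹ q ∈ Fib g z := by
    intro q hq
    have h1 := act_mem_fib hg hgk hinv hq
    have h2 : (fun i => σ⁻¹ (σ (z i))) = z := by
      funext i
      exact σ.symm_apply_apply (z i)
    rwa [h2] at h1
  have hval : ∀ (f : MvPolynomial (Fin 4) ℂ) (_ : f.IsHomogeneous n) (q : PP),
      aeval q.rep (map (σ : ℂ →+* ℂ) f) = 0 ↔ aeval (act σ⁻¹ q).rep f = 0 := by
    intro f hf q
    have h1 : q = act σ (act σ⁻¹ q) := (act_act_inv σ q).symm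
    set q₀ := act σ⁻¹ q with hq₀
    have h2 : act σ q₀ = Projectivization.mk ℂ (fun i => σ (q₀.rep i))
      (map_ne_zero' σ q₀.rep_nonzero) := rfl
    have h3 : aeval (fun i => σ (q₀.rep i)) (map (σ : ℂ →+* ℂ) f) = σ (aeval q₀.rep f) := by
      rw [aeval_def, eval₂_map, aeval_def]
      have h4 := (MvPolynomial.eval₂_comp_left (σ : ℂ →+* ℂ) (algebraMap ℂ ℂ) q₀.rep f)
      change _ = (σ : ℂ →+* ℂ) _
      rw [h4]
      rfl
    rw [h1, h2, mem_zero_mk (hf.map _), h3, map_eq_zero_iff σ σ.injective]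
  intro q hq
  obtain ⟨f, hf, h0, h1⟩ := h _ (hback q hq)
  refine ⟨map (σ : ℂ →+* ℂ) f, hf.map _, fun h => h0 ((hval f hf q).1 h), fun q' hq' hne => ?_⟩
  rw [hval f hf]
  exact h1 _ (hback q' hq') fun h => hne (act_injective _ h)

/-- `Sep` at the points of an open set implies `Sep` at the generic points over the field of
definition (take a generic point over a bigger field and conjugate) -/
theorem sep_generic (hg : ∀ i, (g i).IsHomogeneous d) {k : Fl} [Countable k] (hgk : ∀ i, Coef k (g i))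
    {n : ℕ} {W : MvPolynomial (Fin 4) ℂ} (hW : W ≠ 0) (hsep : ∀ z, aeval z W ≠ 0 → Sep g n z)
    {z : Fin 4 → ℂ} (h1 : z 0 = 1) (hz : AlgebraicIndependent k ![z 1, z 2, z 3]) : Sep g n z := by
  classical
  set k' : Fl := adj k ((W.support.image fun m => coeff m W : Finset ℂ) : Set ℂ) with hk'
  have hcnt : Countable ((W.support.image fun m => coeff m W : Finset ℂ) : Set ℂ) :=
    (Finset.countable_toSet _).to_subtype
  have hWk : Coef k' W := by
    intro m
    by_cases hm : m ∈ W.support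
    · exact subset_adj _ _ (Finset.mem_coe.2 (Finset.mem_image_of_mem _ hm))
    · rw [notMem_support_iff.1 hm]
      exact zero_mem _
  obtain ⟨y, hy⟩ := exists_algInd k' 4
  have hWy : aeval y W ≠ 0 := fun h => hW (ai_iff.1 hy W hWk h)
  have hs := hsep y hWy
  have hy0 : y 0 ≠ 0 := hy.ne_zero 0
  -- the coordinates
  have hw : AlgebraicIndependent k' ![y 0, y 1 / y 0, y 2 / y 0, y 3 / y 0] := by
    refine ai_card hy le_rfl fun i => ?_
    apply le_clo
    set L : Fl := adj k' (Set.range ![y 0, y 1 / y 0, y 2 / y 0, y 3 / y 0]) with hL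
    have e0 : y 0 ∈ L := subset_adj _ _ ⟨0, rfl⟩
    have e1 : y 1 / y 0 ∈ L := subset_adj _ _ ⟨1, rfl⟩
    have e2 : y 2 / y 0 ∈ L := subset_adj _ _ ⟨2, rfl⟩
    have e3 : y 3 / y 0 ∈ L := subset_adj _ _ ⟨3, rfl⟩
    fin_cases i
    · exact e0
    · have := L.mul_mem e1 e0
      rwa [div_mul_cancel₀ _ hy0] at this
    · have := L.mul_mem e2 e0
      rwa [div_mul_cancel₀ _ hy0] at this
    · have := L.mul_mem e3 e0
      rwa [div_mul_cancel₀ _ hy0] at this
  have hw' : AlgebraicIndependent k ![y 1 / y 0, y 2 / y 0, y 3 / y 0] := by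
    have h2 := hw.comp Fin.succ (Fin.succ_injective 3)
    refine ai_mono (show k ≤ k' from le_adj k _) ?_
    have h3 : (![y 0, y 1 / y 0, y 2 / y 0, y 3 / y 0] ∘ Fin.succ) =
        ![y 1 / y 0, y 2 / y 0, y 3 / y 0] := by
      funext i
      fin_cases i <;> rfl
    rwa [h3] at h2
  obtain ⟨σ, hσ, hσz⟩ := exists_fix k ![y 1 / y 0, y 2 / y 0, y 3 / y 0] ![z 1, z 2, z 3] (by
    intro P hP
    constructor
    · intro h
      rw [ai_iff.1 hw' P hP h, map_zero]
    · intro h
      rw [ai_iff.1 hz P hP h, map_zero])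
  have hs' : Sep g n (fun i => (y 0)⁻¹ * y i) := by
    unfold Sep
    rw [fib_smul hg (inv_ne_zero hy0)]
    exact hs
  have h4 := sep_act hg hgk hσ hs'
  have h5 : (fun i => σ ((y 0)⁻¹ * y i)) = z := by
    funext i
    have h6 : ∀ j : Fin 4, (y 0)⁻¹ * y j = y j / y 0 := fun j => by rw [mul_comm, div_eq_mul_inv]
    rw [h6]
    fin_cases i
    · change σ (y 0 / y 0) = z 0
      rw [div_self hy0, map_one, h1]
    · exact hσz 0
    · exact hσz 1
    · exact hσz 2
  rwa [h5] at h4

/-- the fibre through a point of the fibre -/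
private theorem fib_eq (hg : ∀ i, (g i).IsHomogeneous d)
    {z w : Fin 4 → ℂ} (hzg : ∃ i, aeval z (g i) ≠ 0) (hz : z ≠ 0)
    (hw : w ≠ 0) (h : Projectivization.mk ℂ w hw ∈ Fib g z) :
    Projectivization.mk ℂ z hz ∈ Fib g w ∧ Fib g w = Fib g z := by
  rw [mem_fib_mk hg] at h
  obtain ⟨⟨i₁, h1⟩, h⟩ := h
  obtain ⟨i₀, h0⟩ := hzg
  have h2 : aeval w (g i₀) ≠ 0 := by
    intro h3
    have h4 := h i₁ i₀
    rw [h3, zero_mul, mul_eq_zero] at h4
    exact h4.elim h1 h0
  -- `g_i (w) = a g_i (z)`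
  have h3 : ∀ i, aeval w (g i) = (aeval w (g i₀) / aeval z (g i₀)) * aeval z (g i) := by
    intro i
    have h4 := h i i₀
    field_simp
    linear_combination h4
  set a := aeval w (g i₀) / aeval z (g i₀) with ha
  have ha0 : a ≠ 0 := div_ne_zero h2 h0
  constructor
  · rw [mem_fib_mk hg]
    refine ⟨⟨i₀, h0⟩, fun i j => ?_⟩
    rw [h3 i, h3 j]
    ring
  · ext q
    refine and_congr Iff.rfl (forall_congr' fun i => forall_congr' fun j => ?_)
    rw [h3 i, h3 j]
    constructor
    · intro h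
      apply mul_left_cancel₀ ha0
      linear_combination h
    · intro h
      linear_combination a * h

/-- a point of a finite fibre is algebraic -/
private theorem over_of_mem (hg : ∀ i, (g i).IsHomogeneous d) {k : Fl} [Countable k]
    (hgk : ∀ i, Coef k (g i)) {z : Fin 4 → ℂ} (hfin : (Fib g z).Finite) {q : PP}
    (hq : q ∈ Fib g z) : Over (clo (adj k (Set.range z))) q := by
  have : Countable (Set.range z) := (Set.countable_range z).to_subtype
  refine over_clo_of_finite (adj k (Set.range z)) (hfin.subset ?_)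
  rintro q' ⟨σ, hσ, rfl⟩
  rw [mem_Fix_adj] at hσ
  have h1 := act_mem_fib hg hgk hσ.1 hq
  have h2 : (fun i => σ (z i)) = z := by
    funext i
    exact hσ.2 _ ⟨i, rfl⟩
  rwa [h2] at h1

/-- The points of a finite fibre over a generic point `z`: with `y 0 = 1`, algebraic over `k (z)`,
and `z` is algebraic over `k (y)` -/
theorem fib_points (hg : ∀ i, (g i).IsHomogeneous d) {k : Fl} [Countable k]
    (hgk : ∀ i, Coef k (g i)) {z : Fin 4 → ℂ} (hzg : ∃ i, aeval z (g i) ≠ 0) (h1 : z 0 = 1)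
    (hz : AlgebraicIndependent k ![z 1, z 2, z 3]) (hfin : (Fib g z).Finite) {q : PP}
    (hq : q ∈ Fib g z) :
    ∃ (y : Fin 4 → ℂ) (hy : y ≠ 0), y 0 = 1 ∧ q = Projectivization.mk ℂ y hy ∧
      (∀ i, y i ∈ clo (adj k (Set.range z))) ∧ ∀ i, z i ∈ clo (adj k (Set.range y)) := by
  have hz0 : z ≠ 0 := by
    intro h
    rw [h] at h1
    exact zero_ne_one h1
  obtain ⟨w, hw, j, hwj, rfl⟩ := exists_nrm q
  have hzw : ∀ i, z i ∈ clo (adj k (Set.range w)) := by
    obtain ⟨h2, h3⟩ := fib_eq hg hzg hz0 hw hq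
    rw [← over_mk hz0 h1]
    exact over_of_mem hg hgk (by rw [h3]; exact hfin) h2
  have hw0 : w 0 ≠ 0 := by
    intro h0
    have hj : j ≠ 0 := by
      rintro rfl
      rw [h0] at hwj
      exact zero_ne_one hwj
    have h4 : AlgebraicIndependent k (fun i : Fin 3 => w (j.succAbove i)) := by
      refine ai_card hz le_rfl fun i => ?_
      have h5 : adj k (Set.range w) ≤ adj k (Set.range fun i : Fin 3 => w (j.succAbove i)) := by
        refine adj_le (le_adj _ _) ?_
        rintro _ ⟨a, rfl⟩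
        by_cases ha : a = j
        · rw [ha, hwj]
          exact one_mem _
        · obtain ⟨b, rfl⟩ := Fin.exists_succAbove_eq ha
          exact subset_adj _ _ ⟨b, rfl⟩
      apply clo_mono h5
      fin_cases i
      · exact hzw 1
      · exact hzw 2
      · exact hzw 3
    obtain ⟨b, hb⟩ := Fin.exists_succAbove_eq hj.symm
    apply h4.ne_zero b
    change w (j.succAbove b) = 0
    rw [hb, h0]
  set y : Fin 4 → ℂ := fun i => w i / w 0 with hy
  have hy1 : y 0 = 1 := div_self hw0
  have hy0 : y ≠ 0 := by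
    intro h
    rw [h] at hy1
    exact zero_ne_one hy1
  have hmk : (Projectivization.mk ℂ w hw : PP) = Projectivization.mk ℂ y hy0 :=
    mk_eq_mk_of_mul hw hy0 (a := w 0) fun i => by
      rw [hy]
      beta_reduce
      rw [mul_div_cancel₀ _ hw0]
  refine ⟨y, hy0, hy1, hmk, ?_, ?_⟩
  · rw [← over_mk hy0 hy1, ← hmk]
    exact over_of_mem hg hgk hfin hq
  · have h5 : adj k (Set.range y) = adj k (Set.range w) := by
      rw [← adjP_mk hy0 hy1, ← adjP_mk hw hwj, hmk]
    rw [h5]
    exact hzw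

end Pool.Agent.VGS.W
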