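import Pool.Agent.VGW.SmoothG
import Pool.Agent.VGV.SepMon

/-! Module Glue: linear systems without base points; the field of the coefficients; the forms in
which only certain monomials occur. -/

set_option autoImplicit false

open scoped LinearAlgebra.Projectivization
open MvPolynomial

namespace Pool.Agent.VGS.W

variable {ι : Type} {g : ι → MvPolynomial (Fin 4) ℂ}

theorem countable_bfd [Fintype ι] (g : ι → MvPolynomial (Fin 4) ℂ) : Countable (V.bfd g) := by
  have h2 : {x | ∃ i m, x = coeff m (g i)} =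
      Set.range (fun p : ι × (Fin 4 →₀ ℕ) => coeff p.2 (g p.1)) := by
    ext x
    constructor
    · rintro ⟨i, m, rfl⟩
      exact ⟨(i, m), rfl⟩
    · rintro ⟨⟨i, m⟩, rfl⟩
      exact ⟨i, m, rfl⟩
  have hι : Countable ι := Finite.to_countable
  have h3 : Countable (Set.range (fun p : ι × (Fin 4 →₀ ℕ) => coeff p.2 (g p.1))) :=
    (Set.countable_range _).to_subtype
  have h4 : Countable (⊥ : Fl) := by
    have h1 : Function.Surjective (algebraMap ℚ (⊥ : Fl)) := by
      rintro ⟨x, hx⟩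
      rw [IntermediateField.mem_bot] at hx
      obtain ⟨q, rfl⟩ := hx
      exact ⟨q, rfl⟩
    exact h1.countable
  have h5 : V.bfd g = adj ⊥ (Set.range (fun p : ι × (Fin 4 →₀ ℕ) => coeff p.2 (g p.1))) := by
    rw [V.bfd, h2, adj, bot_sup_eq]
  rw [h5]
  infer_instance

/-- no common zero -/
theorem planar_of_bpf (hbpf : ∀ z : Fin 4 → ℂ, z ≠ 0 → ∃ i, aeval z (g i) ≠ 0) :
    PlanarCurve g := by
  refine ⟨fun z hz h => ?_, ?_⟩
  · obtain ⟨i, hi⟩ := hbpf z hz
    exact absurd (h i) hi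
  · have h1 : {q : PP | (∀ j, aeval q.rep (g j) = 0) ∧ ∀ j j' m m',
        aeval q.rep (pderiv m (g j) * pderiv m' (g j') - pderiv m' (g j) * pderiv m (g j')) =
          0} = ∅ := by
      ext q
      refine ⟨fun h => ?_, fun h => h.elim⟩
      obtain ⟨i, hi⟩ := hbpf q.rep q.rep_nonzero
      exact absurd (h.1 i) hi
    rw [h1]
    exact Set.finite_empty

theorem sep_of_bpf (hbpf : ∀ z : Fin 4 → ℂ, z ≠ 0 → ∃ i, aeval z (g i) ≠ 0) {n : ℕ}
    {z : Fin 4 → ℂ} (h : V.Sep g n z) : Sep g n z := by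
  have h1 : Fib g z = V.Fib g z := by
    ext q
    exact ⟨fun hq => hq.2, fun hq => ⟨hbpf q.rep q.rep_nonzero, hq⟩⟩
  unfold Sep
  rw [h1]
  exact h

/-- the monomials form a finite set -/
theorem finite_monW (a b c d : ℕ) : Finite (V.MonW a b c d) := by
  have h1 : Set.Finite {m : Fin 4 →₀ ℕ | m.degree = d} := by
    refine (Finset.finite_toSet (Finset.finsuppAntidiag (Finset.univ : Finset (Fin 4)) d)).subset ?_
    intro m hm
    rw [Finset.mem_coe, Finset.mem_finsuppAntidiag]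
    refine ⟨?_, Finset.subset_univ _⟩
    rw [← (hm : m.degree = d), Finsupp.degree_eq_sum]
  exact (h1.subset (t := {m : Fin 4 →₀ ℕ | m.degree = d ∧ a ∣ m 1 ∧ b ∣ m 2 ∧ c ∣ m 3})
    fun m hm => hm.1).to_subtype

theorem bfd_gW (a b c d : ℕ) : V.bfd (V.gW a b c d) ≤ ⊥ := by
  rw [V.bfd, IntermediateField.adjoin_le_iff]
  rintro x ⟨i, m, rfl⟩
  unfold V.gW
  rw [coeff_monomial]
  split_ifs
  · exact one_mem _
  · exact zero_mem _

/-- a form in which only these monomials occur is a member of the linear system -/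
theorem sum_gW {a b c d : ℕ} [Fintype (V.MonW a b c d)] {F : MvPolynomial (Fin 4) ℂ}
    (hF : F.IsHomogeneous d) (hs : ∀ m, coeff m F ≠ 0 → a ∣ m 1 ∧ b ∣ m 2 ∧ c ∣ m 3) :
    F = ∑ i : V.MonW a b c d, C (coeff i.1 F) * V.gW a b c d i := by
  classical
  ext m
  rw [coeff_sum]
  by_cases hm : coeff m F = 0
  · rw [hm]
    refine (Finset.sum_eq_zero fun i _ => ?_).symm
    unfold V.gW
    rw [coeff_C_mul, coeff_monomial]
    split_ifs with h
    · rw [h, hm, zero_mul]
    · rw [mul_zero]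
  · have hd : m.degree = d := by
      by_contra h
      exact hm (hF.coeff_eq_zero h)
    rw [Finset.sum_eq_single (⟨m, hd, hs m hm⟩ : V.MonW a b c d)]
    · unfold V.gW
      rw [coeff_C_mul, coeff_monomial, if_pos rfl, mul_one]
    · intro i _ hi
      unfold V.gW
      rw [coeff_C_mul, coeff_monomial, if_neg, mul_zero]
      intro h
      exact hi (Subtype.ext h)
    · intro h
      exact absurd (Finset.mem_univ _) h

theorem sep_gW {a b c d : ℕ} (ha : a ∣ d) (hb : b ∣ d) (hc : c ∣ d) (hd : 1 + a + b + c ≤ d) :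
    ∃ P : MvPolynomial (Fin 4) ℂ, P ≠ 0 ∧ ∀ z, aeval z P ≠ 0 →
      Sep (V.gW a b c d) (d - 4) z := by
  refine ⟨X 0 * X 1 * X 2 * X 3, ?_, fun z hz => ?_⟩
  · exact mul_ne_zero (mul_ne_zero (mul_ne_zero (X_ne_zero 0) (X_ne_zero 1)) (X_ne_zero 2))
      (X_ne_zero 3)
  · refine sep_of_bpf (fun z hz => V.gW_bpf ha hb hc z hz) (V.sep_mon ha hb hc hd fun i => ?_)
    rw [map_mul, map_mul, map_mul, aeval_X, aeval_X, aeval_X, aeval_X] at hz
    simp only [ne_eq, mul_eq_zero, not_or] at hz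
    obtain ⟨⟨⟨h0, h1⟩, h2⟩, h3⟩ := hz
    fin_cases i
    · exact h0
    · exact h1
    · exact h2
    · exact h3

end Pool.Agent.VGS.W
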