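import Pool.Agent.VGS.EffDefs

/-! Bloch's conjecture up to nilpotents, for one surface: the statement. -/

set_option autoImplicit false

open MvPolynomial

namespace Pool.Agent.VGS.W

open Pool.Agent.Chow0 (IsChowForm Z0 CH0 cyc)
open Pool.Agent.LowDeg (surf EffCorr IsGenericPoint ActsByScalar)

/-- `φ` is an endomorphism of the Chow group of zero-cycles which maps the class of `p` to the
class of `Γ p - Γ' p` for the points `p` of `V`. -/
def Induces {Ω : Type} [Field Ω] [Algebra ℂ Ω] {F : MvPolynomial (Fin 4) ℂ} {ξ : Fin 4 → Ω}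
    {w w' : ℕ} (Γ : EffCorr F ξ w) (Γ' : EffCorr F ξ w') (V : Set (surf F))
    (φ : AddMonoid.End (CH0 (surf F))) : Prop :=
  ∀ p ∈ V, ∀ s s' : Multiset (surf F), IsChowForm (surf F) (Γ.at p.1.rep) s →
    IsChowForm (surf F) (Γ'.at p.1.rep) s' →
      φ (QuotientAddGroup.mk (FreeAbelianGroup.of p)) =
        QuotientAddGroup.mk (cyc s) - QuotientAddGroup.mk (cyc s')

/-- The surface `X : F = 0` in `ℙ³`, `F` of degree `d`, has a generic point `ξ` over an algebraic
closure `Ω` of its function field, and the following holds. Let `Γ i` and `Γ' i` be finitely many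
effective correspondences from `X` to itself, given over the generic point of the first factor,
such that `Γ i - Γ' i` acts on the holomorphic 2-forms of `X` as zero. Then for some `N` all
products of `N` of the operators `Γ i - Γ' i` on the Chow group are zero, up to torsion, on the
classes of degree zero: this holds for all endomorphisms `φ i` of the Chow group of zero-cycles
which map the class of `p` to the class of `Γ i p - Γ' i p` for the points `p` outside countably
many curves `D j = 0` of `X`. -/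
def NilOp (F : MvPolynomial (Fin 4) ℂ) (d : ℕ) : Prop :=
  (∃ (Ω : Type) (_ : Field Ω) (_ : Algebra ℂ Ω) (_ : IsAlgClosed Ω) (ξ : Fin 4 → Ω),
    IsGenericPoint F ξ) ∧
  ∀ (Ω : Type) [Field Ω] [Algebra ℂ Ω] [IsAlgClosed Ω] (ξ : Fin 4 → Ω), IsGenericPoint F ξ →
    ∀ (n : ℕ) (w w' : Fin n → ℕ) (Γ : ∀ i, EffCorr F ξ (w i)) (Γ' : ∀ i, EffCorr F ξ (w' i)),
      (∀ i, ActsByScalar F (d - 4) (Γ i) (Γ' i) 0) →
      ∃ (N M : ℕ) (D : ℕ → MvPolynomial (Fin 4) ℂ), 0 < M ∧
        (∀ j, (∃ e, (D j).IsHomogeneous e) ∧ ¬ F ∣ D j) ∧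
        (∀ i, ∀ p ∈ veryGen F D, ∃ s s' : Multiset (surf F),
          IsChowForm (surf F) ((Γ i).at p.1.rep) s ∧
          IsChowForm (surf F) ((Γ' i).at p.1.rep) s') ∧
        ∀ φ : Fin n → AddMonoid.End (CH0 (surf F)),
          (∀ i, Induces (Γ i) (Γ' i) (veryGen F D) (φ i)) →
          ∀ word : Fin N → Fin n, ∀ z : Z0 (surf F), Pool.Agent.Chow0.deg z = 0 →
            M • (List.ofFn fun j => φ (word j)).prod (QuotientAddGroup.mk z) = 0

end Pool.Agent.VGS.W
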