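import Pool.Agent.VGW.Fibre

/-! Module NonBase: a generic point of the surface is not in the base locus. -/

set_option autoImplicit false

open scoped LinearAlgebra.Projectivization
open MvPolynomial

namespace Pool.Agent.VGS.W

open Pool.Agent.LowDeg (surf IsSmoothForm)

variable {ι : Type} {g : ι → MvPolynomial (Fin 4) ℂ} {d : ℕ}

private theorem fb_exists_ne {P : MvPolynomial (Fin 4) ℂ} (h : P ≠ 0) :
    ∃ z : Fin 4 → ℂ, aeval z P ≠ 0 := by
  by_contra hcon
  push Not at hcon
  refine h (MvPolynomial.funext fun x => ?_)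
  rw [map_zero]
  exact hcon x

/-- A generic point of the surface is not in the base locus. (If `g i (p) = 0` for all `i` then
`F ∣ g i` (definition of `Gen`), so `g i = C (c i) * F` by degrees, some `c i ≠ 0` as `F ≠ 0`; take
`z` with `W (z) ≠ 0` and `F (z) ≠ 0`; then every point where `F ≠ 0` is in `Fib g z`; a form `f`
which vanishes at all these points but one is zero.) -/
theorem gen_not (hg : ∀ i, (g i).IsHomogeneous d) [Fintype ι] {a : ι → ℂ} {n : ℕ}
    {W : MvPolynomial (Fin 4) ℂ} (hW : W ≠ 0) (hsep : ∀ z, aeval z W ≠ 0 → Sep g n z)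
    {F : MvPolynomial (Fin 4) ℂ} (hF : F = ∑ i, C (a i) * g i) (hsm : IsSmoothForm F d)
    {K : Fl} (hgK : ∀ i, Coef K (g i)) {z : Fin 4 → ℂ} (hz : z ≠ 0)
    (hp : Projectivization.mk ℂ z hz ∈ Gen K F) : ∃ i, aeval z (g i) ≠ 0 := by
  classical
  by_contra hcon
  push Not at hcon
  have hF0 : F ≠ 0 := by
    intro h
    obtain ⟨i, hi⟩ := hsm.smooth z hz (by rw [h, map_zero])
    exact hi (by rw [h, map_zero, map_zero])
  -- `g i` is a multiple of `F`
  have hc : ∀ i, ∃ c : ℂ, g i = C c * F := by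
    intro i
    have h1 : aeval (Projectivization.mk ℂ z hz : PP).rep (g i) = 0 := by
      rw [mem_zero_mk (hg i) hz]
      exact hcon i
    obtain ⟨h, hh⟩ := hp.2 d (g i) (hg i) (hgK i) h1
    by_cases h0 : g i = 0
    · exact ⟨0, by rw [h0, C_0, zero_mul]⟩
    · have h2 : h ≠ 0 := by
        rintro rfl
        exact h0 (by rw [hh, mul_zero])
      have h3 := congrArg totalDegree hh
      rw [totalDegree_mul_of_isDomain hF0 h2, (hg i).totalDegree h0, hsm.hom.totalDegree hF0] at h3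
      have h4 : h.totalDegree = 0 := by omega
      rw [totalDegree_eq_zero_iff_eq_C] at h4
      exact ⟨coeff 0 h, by rw [hh, ← h4, mul_comm]⟩
  choose c hc using hc
  obtain ⟨i₀, hi₀⟩ : ∃ i, c i ≠ 0 := by
    by_contra h
    push Not at h
    apply hF0
    rw [hF]
    refine Finset.sum_eq_zero fun i _ => ?_
    rw [hc i, h i, C_0, zero_mul, mul_zero]
  -- a point `z'`
  obtain ⟨z', hz'⟩ := fb_exists_ne (mul_ne_zero hW hF0)
  rw [map_mul] at hz'
  have hWz := left_ne_zero_of_mul hz'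
  have hFz := right_ne_zero_of_mul hz'
  have hfib : ∀ (y : Fin 4 → ℂ) (hy : y ≠ 0), aeval y F ≠ 0 →
      Projectivization.mk ℂ y hy ∈ Fib g z' := by
    intro y hy hyF
    rw [mem_fib_mk hg]
    refine ⟨⟨i₀, ?_⟩, fun i j => ?_⟩
    · rw [hc i₀, map_mul, aeval_C]
      exact mul_ne_zero hi₀ hyF
    · rw [hc i, hc j, map_mul, map_mul, map_mul, map_mul, aeval_C, aeval_C, aeval_C, aeval_C]
      ring
  have hsz := hsep z' hWz
  have hd : d ≠ 0 := by
    rintro rfl
    have h1 : F = C (coeff 0 F) := by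
      rw [← totalDegree_eq_zero_iff_eq_C]
      exact hsm.hom.totalDegree hF0
    have h2 := hcon i₀
    rw [hc i₀, map_mul, aeval_C, h1, aeval_C] at h2
    have h3 : coeff 0 F ≠ 0 := by
      intro h
      rw [h, C_0] at h1
      exact hF0 h1
    exact mul_ne_zero hi₀ h3 h2
  have hz'0 : z' ≠ 0 := by
    rintro rfl
    apply hFz
    have h1 := aeval_scale hsm.hom (z := (0 : Fin 4 → ℂ)) (w := (0 : Fin 4 → ℂ)) (a := 0)
      (fun i => by rw [Pi.zero_apply, mul_zero])
    rw [h1, zero_pow hd, zero_mul]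
  obtain ⟨f, hf, hf0, hfq⟩ := hsz _ (hfib z' hz'0 hFz)
  have hf00 : f ≠ 0 := by
    rintro rfl
    exact hf0 (map_zero _)
  set q₀ : PP := Projectivization.mk ℂ z' hz'0 with hq₀
  obtain ⟨j, hj⟩ : ∃ j, z' j ≠ 0 := by
    by_contra h
    push Not at h
    exact hz'0 (funext h)
  obtain ⟨j', hj'⟩ : ∃ j' : Fin 4, j' ≠ j := exists_ne j
  set l : MvPolynomial (Fin 4) ℂ := C (z' j) * X j' - C (z' j') * X j with hl
  have hl0 : l ≠ 0 := by
    intro h
    have h1 := congrArg (aeval (Pi.single j' (1 : ℂ))) h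
    rw [hl, map_sub, map_mul, map_mul, aeval_C, aeval_C, aeval_X, aeval_X, Pi.single_eq_same,
      Pi.single_eq_of_ne hj'.symm, mul_one, mul_zero, sub_zero, map_zero] at h1
    exact hj h1
  obtain ⟨y, hy⟩ := fb_exists_ne (mul_ne_zero (mul_ne_zero hf00 hF0) hl0)
  rw [map_mul, map_mul] at hy
  have hyf := left_ne_zero_of_mul (left_ne_zero_of_mul hy)
  have hyF := right_ne_zero_of_mul (left_ne_zero_of_mul hy)
  have hyl := right_ne_zero_of_mul hy
  have hy0 : y ≠ 0 := by
    rintro rfl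
    apply hyl
    rw [hl, map_sub, map_mul, map_mul, aeval_X, aeval_X, Pi.zero_apply, Pi.zero_apply, mul_zero,
      mul_zero, sub_zero]
  by_cases hyq : Projectivization.mk ℂ y hy0 = q₀
  · apply hyl
    rw [hq₀, Projectivization.mk_eq_mk_iff'] at hyq
    obtain ⟨b, hb⟩ := hyq
    rw [hl, map_sub, map_mul, map_mul, aeval_X, aeval_X, aeval_C, aeval_C, ← hb, Pi.smul_apply,
      Pi.smul_apply, smul_eq_mul, smul_eq_mul]
    change z' j * (b * z' j') - z' j' * (b * z' j) = 0
    ring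
  · have h1 := hfq _ (hfib y hy0 hyF) hyq
    rw [mem_zero_mk hf hy0] at h1
    exact hyf h1

end Pool.Agent.VGS.W
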