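import Pool.Agent.VGW.Defs

/-! Curves with planar singularities: the definition. -/

set_option autoImplicit false

open scoped LinearAlgebra.Projectivization
open MvPolynomial

namespace Pool.Agent.VGS.W

/-- The common zeros of the forms `h j` are, as a scheme `Z`, of dimension at most one, reduced
outside finitely many points, and locally contained in smooth surfaces: at every point of `Z` some
differential `d h_j` is not zero, and at all but finitely many points of `Z` two of them are linearly
independent (a minor of the Jacobian matrix is not zero). -/
structure PlanarCurve {J : Type} (h : J → MvPolynomial (Fin 4) ℂ) : Prop where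
  one : ∀ z : Fin 4 → ℂ, z ≠ 0 → (∀ j, aeval z (h j) = 0) → ∃ j m, aeval z (pderiv m (h j)) ≠ 0
  two : {q : PP | (∀ j, aeval q.rep (h j) = 0) ∧ ∀ j j' m m',
    aeval q.rep (pderiv m (h j) * pderiv m' (h j') - pderiv m' (h j) * pderiv m (h j')) = 0}.Finite

end Pool.Agent.VGS.W
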