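import Pool.Agent.VGW.Ind
import Pool.Agent.VGW.Letters
import Pool.Agent.VGW.NonBase
import Pool.Agent.VGV.TauV
import Pool.Agent.VGV.Ground

/-! Module S1W: invariant correspondences which are zero on two-forms. -/

set_option autoImplicit false

open scoped LinearAlgebra.Projectivization
open MvPolynomial

namespace Pool.Agent.VGS.W

open Pool.Agent.LowDeg (surf IsSmoothForm)

variable {ι : Type} {g : ι → MvPolynomial (Fin 4) ℂ} {d : ℕ}

private theorem act_image_hset {F : MvPolynomial (Fin 4) ℂ} (hF : F.IsHomogeneous d) {K : Fl}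
    (hFK : Coef K F) (hg : ∀ i, (g i).IsHomogeneous d) (hgK : ∀ i, Coef K (g i))
    {σ : ℂ ≃+* ℂ} (hσ : σ ∈ Fix K) :
    act σ '' {q : PP | q ∈ surf F ∧ q ∉ Zer g ∧ q.rep 0 = 0 ∧ q.rep 1 = 0} =
      {q : PP | q ∈ surf F ∧ q ∉ Zer g ∧ q.rep 0 = 0 ∧ q.rep 1 = 0} := by
  have key : ∀ τ ∈ Fix K, ∀ q : PP, q ∈ surf F ∧ q ∉ Zer g ∧ q.rep 0 = 0 ∧ q.rep 1 = 0 →
      act τ q ∈ surf F ∧ act τ q ∉ Zer g ∧ (act τ q).rep 0 = 0 ∧ (act τ q).rep 1 = 0 := by
    rintro τ hτ q ⟨h1, hZ, h2, h3⟩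
    refine ⟨(act_mem_surf hF hFK hτ).2 h1, ?_, ?_, ?_⟩
    · intro h
      apply hZ
      have h4 := zer_act hg hgK (inv_mem hτ : τ⁻¹ ∈ Fix K) h
      rwa [act_inv_act] at h4
    · unfold act
      rw [rep_mk_eq_zero, h2, map_zero]
    · unfold act
      rw [rep_mk_eq_zero, h3, map_zero]
  ext q
  constructor
  · rintro ⟨q', hq', rfl⟩
    exact key σ hσ q' hq'
  · intro hq
    exact ⟨act σ⁻¹ q, key σ⁻¹ (inv_mem hσ) q hq, act_act_inv σ q⟩

private theorem actC_injective (σ : ℂ ≃+* ℂ) : Function.Injective (actC σ) :=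
  Finsupp.mapDomain_injective (act_injective σ)

private theorem actC_hL {F : MvPolynomial (Fin 4) ℂ} (hF : F.IsHomogeneous d) {K : Fl}
    (hFK : Coef K F) (hg : ∀ i, (g i).IsHomogeneous d) (hgK : ∀ i, Coef K (g i))
    {σ : ℂ ≃+* ℂ} (hσ : σ ∈ Fix K) : actC σ (hL (Zer g) F) = hL (Zer g) F := by
  unfold hL sumSet
  conv_rhs => rw [← act_image_hset hF hFK hg hgK hσ, finsum_mem_image (act_injective σ).injOn]
  have h1 := (actC σ).toAddMonoidHom.map_finsum_of_injective (actC_injective σ)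
    (fun q : PP => ∑ᶠ _ : q ∈ {q : PP | q ∈ surf F ∧ q ∉ Zer g ∧ q.rep 0 = 0 ∧ q.rep 1 = 0},
      Finsupp.single q (1 : ℚ))
  refine h1.trans ?_
  refine finsum_congr fun q => ?_
  have h2 := (actC σ).toAddMonoidHom.map_finsum_of_injective (actC_injective σ)
    (fun _ : q ∈ {q : PP | q ∈ surf F ∧ q ∉ Zer g ∧ q.rep 0 = 0 ∧ q.rep 1 = 0} =>
      Finsupp.single q (1 : ℚ))
  refine h2.trans ?_
  refine finsum_congr fun _ => ?_
  exact actC_single σ q 1

variable [Fintype ι] {a : ι → ℂ}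

private theorem zero_of_fib (hg : ∀ i, (g i).IsHomogeneous d)
    {F : MvPolynomial (Fin 4) ℂ} (hF : F = ∑ i, C (a i) * g i) {z y : Fin 4 → ℂ}
    (hzg : ∃ i, aeval z (g i) ≠ 0)
    (hzF : aeval z F = 0) (hy : y ≠ 0) (h : Projectivization.mk ℂ y hy ∈ Fib g z) :
    aeval y F = 0 := by
  obtain ⟨i₀, hi₀⟩ := hzg
  replace h := ((mem_fib_mk hg hy).1 h).2
  have h1 : aeval z (g i₀) * aeval y F = aeval y (g i₀) * aeval z F := by
    rw [hF, map_sum, map_sum, Finset.mul_sum, Finset.mul_sum]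
    refine Finset.sum_congr rfl fun i _ => ?_
    rw [map_mul, map_mul, aeval_C, aeval_C]
    have h2 := h i i₀
    linear_combination (algebraMap ℂ ℂ (a i)) * h2
  rw [hzF, mul_zero] at h1
  exact (mul_eq_zero.1 h1).resolve_left hi₀

private theorem zer_surf (hg : ∀ i, (g i).IsHomogeneous d)
    {F : MvPolynomial (Fin 4) ℂ} (hF : F = ∑ i, C (a i) * g i) : ∀ q ∈ Zer g, q ∈ surf F := by
  intro q hq
  change aeval q.rep F = 0
  rw [hF, map_sum]
  refine Finset.sum_eq_zero fun i _ => ?_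
  rw [map_mul, hq i, mul_zero]

private theorem local_formula (hd : 4 ≤ d) (hg : ∀ i, (g i).IsHomogeneous d) {k : Fl} [Countable k]
    (hgk : ∀ i, Coef k (g i))
    (ha : AlgebraicIndependent k a) {F : MvPolynomial (Fin 4) ℂ} (hF : F = ∑ i, C (a i) * g i)
    (hsm : IsSmoothForm F d)
    {α : PP → Cy} (hα : ∀ p ∈ Gen (adj k (Set.range a)) F, α p ∈ TZ (adj k (Set.range a)) F d)
    (he : ∀ σ ∈ Fix (adj k (Set.range a)), ∀ p ∈ Gen (adj k (Set.range a)) F,
      α (act σ p) = actC σ (α p))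
    {z : Fin 4 → ℂ} (hzg : ∃ i, aeval z (g i) ≠ 0) (hz : z ≠ 0) (h1 : z 0 = 1)
    (hp : Projectivization.mk ℂ z hz ∈ Gen (adj k (Set.range a)) F)
    (hfin : (Fib g z).Finite) :
    ∃ (b : Cy) (c : ℚ) (v : Cy), (∀ q ∈ b.support, q ∈ Fib g z) ∧
      (∀ σ ∈ Fix k, actC σ v = v) ∧
      α (Projectivization.mk ℂ z hz) - b - c • hL (Zer g) F - v ∈ ratQ F := by
  classical
  obtain ⟨i₀, hi₀, hR, hE, hbase, n, e, hei, hee⟩ :=
    letters hd hg hgk ha (hF ▸ hsm) hzg hz h1 (hF ▸ hp) hfin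
  rw [← hF] at hR
  have hzc : Countable (Set.range z) := (Set.countable_range z).to_subtype
  have hEP : adjP (adj k (Set.range a)) (Projectivization.mk ℂ z hz) =
      adj (adj k (Set.range z)) (Set.range fun i : {i // i ≠ i₀} => a i) := by
    rw [hE, adjP_mk hz h1]
  have hαp : ∀ τ ∈ Fix (adj (adj k (Set.range z)) (Set.range fun i : {i // i ≠ i₀} => a i)),
      actC τ (α (Projectivization.mk ℂ z hz)) = α (Projectivization.mk ℂ z hz) := by
    intro τ hτ
    rw [← hEP] at hτ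
    rw [← he τ (mem_Fix_adjP.1 hτ).1 _ hp, (mem_Fix_adjP.1 hτ).2]
  have hover : ∀ q ∈ (α (Projectivization.mk ℂ z hz)).support,
      Over (clo (adj (adj k (Set.range z)) (Set.range fun i : {i // i ≠ i₀} => a i))) q := by
    intro q hq
    have hac : Countable (Set.range fun i : {i // i ≠ i₀} => a i) :=
      (Set.countable_range _).to_subtype
    apply over_clo_of_finite
    refine ((α (Projectivization.mk ℂ z hz)).support.finite_toSet).subset ?_
    rintro q' ⟨τ, hτ, rfl⟩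
    rw [Finset.mem_coe, Finsupp.mem_support_iff, ← hαp τ hτ, actC_apply, act_inv_act]
    exact Finsupp.mem_support_iff.1 hq
  obtain ⟨b, c, v, hb, hv, hvs, h⟩ := thmR hd hR (y := α (Projectivization.mk ℂ z hz))
    (fun q hq => ⟨(hα _ hp).1 q hq, hover q hq⟩) hαp
  rw [← hee] at hv hvs
  obtain ⟨v', -, hv's, hvv⟩ := base_const k hg hgk (zer_surf hg hF) e hei hv hvs
  refine ⟨b, c, v', fun q hq => hbase q (hb q hq).1 (hb q hq).2, hv's, ?_⟩
  have h2 := (ratQ F).add_mem h hvv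
  rwa [sub_add_sub_cancel] at h2

theorem s1W (hd : 4 ≤ d) (hg : ∀ i, (g i).IsHomogeneous d) {k : Fl} [Countable k]
    (hgk : ∀ i, Coef k (g i))
    {W : MvPolynomial (Fin 4) ℂ} (hW : W ≠ 0) (hsep : ∀ z, aeval z W ≠ 0 → Sep g (d - 4) z)
    (ha : AlgebraicIndependent k a) {F : MvPolynomial (Fin 4) ℂ} (hF : F = ∑ i, C (a i) * g i)
    (hsm : IsSmoothForm F d)
    {α : PP → Cy} (hα : ∀ p ∈ Gen (adj k (Set.range a)) F, α p ∈ TZ (adj k (Set.range a)) F d)
    (he : ∀ σ ∈ Fix (adj k (Set.range a)), ∀ p ∈ Gen (adj k (Set.range a)) F,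
      α (act σ p) = actC σ (α p)) :
    ∀ p ∈ Gen (adj k (Set.range a)) F, ∀ q ∈ Gen (adj k (Set.range a)) F,
      α p - α q ∈ ratQ F := by
  classical
  have hac : Countable (Set.range a) := (Set.countable_range a).to_subtype
  have hKc : Countable (adj k (Set.range a)) := countable_adj _ _
  have hkK : k ≤ adj k (Set.range a) := le_adj _ _
  have hgK : ∀ i, Coef (adj k (Set.range a)) (g i) := fun i => (hgk i).mono hkK
  have hFK : Coef (adj k (Set.range a)) F := by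
    intro m
    rw [hF, coeff_sum]
    refine sum_mem fun i _ => ?_
    rw [coeff_C_mul]
    exact mul_mem (subset_adj _ _ ⟨i, rfl⟩) (hkK (hgk i m))
  -- one point
  obtain ⟨p, hp⟩ := exists_gen hd hsm (adj k (Set.range a)) hFK
  obtain ⟨z, hz, h1, -, rfl⟩ := gen_nrm hd hsm hp 0
  have hzF : aeval z F = 0 := (mem_surf_mk hsm.hom hz).1 hp.1
  have hzg : ∃ i, aeval z (g i) ≠ 0 := gen_not hg hW hsep hF hsm hgK hz hp
  have hz3 : AlgebraicIndependent k ![z 1, z 2, z 3] :=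
    gen_z hd hgk ha (hF ▸ hsm) hzg hz h1 (hF ▸ hp)
  have hsepz := sep_generic hg hgk hW hsep h1 hz3
  have hfin := fib_finite hsepz
  obtain ⟨b, c, v, hb, hv, hf⟩ := local_formula hd hg hgk ha hF hsm hα he hzg hz h1 hp hfin
  have hvK : ∀ σ ∈ Fix (adj k (Set.range a)), actC σ v = v := fun σ hσ => hv σ (Fix_mono hkK hσ)
  have hb0 : b = 0 := by
    obtain ⟨r, hr⟩ := exists_gen hd hsm (clo (adjP (adj k (Set.range a))
      (Projectivization.mk ℂ z hz))) (hFK.mono ((le_adjP _ _).trans (le_clo _)))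
    have hrK : r ∈ Gen (adj k (Set.range a)) F :=
      Gen_anti ((le_adjP _ _).trans (le_clo _)) F hr
    obtain ⟨L, hL'⟩ : ∃ L : Fl, L = clo (adjP (adj k (Set.range a)) r) := ⟨_, rfl⟩
    have hLc : Countable L := by rw [hL']; infer_instance
    have hKL : adj k (Set.range a) ≤ L := by rw [hL']; exact (le_adjP _ _).trans (le_clo _)
    have hkL : k ≤ L := hkK.trans hKL
    have hFL : Coef L F := hFK.mono hKL
    have hpL : Projectivization.mk ℂ z hz ∈ Gen L F := by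
      rw [hL']; exact gen_symm hd hsm _ hFK hp hr
    obtain ⟨D₁, D₂, h₁, h₂, -, -, hne⟩ := exists_tau_ne hd hsm L hFL hpL
    have hk₁ : Kills (adj k (Set.range a)) D₁ := fun x hx => h₁ x (hKL hx)
    have hk₂ : Kills (adj k (Set.range a)) D₂ := fun x hx => h₂ x (hKL hx)
    obtain ⟨σ, hσ, hσp⟩ := gen_conj hd hsm _ hFK hp hrK
    have hσk : σ ∈ Fix k := Fix_mono hkK hσ
    have hσz : (fun i => σ (z i)) ≠ 0 := map_ne_zero' σ hz
    have hr' : r = Projectivization.mk ℂ (fun i => σ (z i)) hσz := by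
      rw [← hσp, act_mk σ z hz hσz]
    have hσ1 : (fun i => σ (z i)) 0 = 1 := by
      show σ (z 0) = 1
      rw [h1, map_one]
    have hrK' : Projectivization.mk ℂ (fun i => σ (z i)) hσz ∈
        Gen (adj k (Set.range a)) (∑ i, C (a i) * g i) := by
      rw [← hF, ← hr']
      exact hrK
    have hσzg : ∃ i, aeval (fun i => σ (z i)) (g i) ≠ 0 :=
      gen_not (z := fun i => σ (z i)) hg hW hsep hF hsm hgK hσz (hr' ▸ hrK)
    have hσz3 : AlgebraicIndependent k
        ![(fun i => σ (z i)) 1, (fun i => σ (z i)) 2, (fun i => σ (z i)) 3] :=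
      gen_z (z := fun i => σ (z i)) hd hgk ha (hF ▸ hsm) hσzg hσz hσ1 hrK'
    have hσfin : (Fib g fun i => σ (z i)).Finite :=
      fib_finite (sep_generic (z := fun i => σ (z i)) hg hgk hW hsep hσ1 hσz3)
    -- the point `r` and its fibre are over `L`
    have hzL : adj k (Set.range fun i => σ (z i)) ≤ adjP (adj k (Set.range a)) r := by
      rw [hr', adjP_mk hσz (i := 0) hσ1]
      exact adj_le (hkK.trans (le_adj _ _)) (subset_adj _ _)
    have hfibL : ∀ q ∈ Fib g (fun i => σ (z i)), q ∈ surf F ∧ Over L q := by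
      intro q hq
      obtain ⟨y, hy, h1y, rfl, hy', -⟩ := fib_points (z := fun i => σ (z i)) hg hgk hσzg hσ1
        hσz3 hσfin hq
      refine ⟨?_, ?_⟩
      · rw [mem_surf_mk hsm.hom]
        exact zero_of_fib hg hF hσzg ((mem_surf_mk hsm.hom hσz).1 (hr' ▸ hrK.1)) hy hq
      · refine ⟨y, hy, fun i => ?_, rfl⟩
        rw [hL']
        exact clo_mono hzL (hy' i)
    have hf' := actC_ratQ hsm.hom hFK hσ hf
    rw [map_sub, map_sub, map_sub, map_smul, actC_hL hsm.hom hFK hg hgK hσ, hvK σ hσ,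
      ← he σ hσ _ hp, hσp] at hf'
    have h4 := (ratQ F).sub_mem hf hf'
    -- all two-forms
    have htau : ∀ f : MvPolynomial (Fin 4) ℂ, f.IsHomogeneous (d - 4) →
        tauC F D₁ D₂ f b = 0 := by
      intro f hfh
      have h5 := mumford hd hsm L hFL h₁ h₂ hfh h4
      have h6 : tauC F D₁ D₂ f (α (Projectivization.mk ℂ z hz)) = 0 :=
        (hα _ hp).2 D₁ D₂ hk₁ hk₂ f hfh
      have h7 : tauC F D₁ D₂ f (α r) = 0 := (hα _ hrK).2 D₁ D₂ hk₁ hk₂ f hfh
      have h8 : tauC F D₁ D₂ f (actC σ b) = 0 := by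
        unfold tauC
        rw [Finsupp.linearCombination_apply, Finsupp.sum]
        refine Finset.sum_eq_zero fun q hq => ?_
        have h9 := act_mem_fib hg hgk hσk (hb _ (support_actC hq))
        rw [act_act_inv] at h9
        obtain ⟨h10, h11⟩ := hfibL q h9
        rw [tau_over hd hsm hFL h₁ h₂ h10 h11 hfh, smul_zero]
      simp only [map_sub, h6, h7, h8] at h5
      linear_combination -h5
    by_contra hb0
    obtain ⟨q₀, hq₀⟩ := Finsupp.support_nonempty_iff.2 hb0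
    obtain ⟨f, hfh, hf0, hfq⟩ := hsepz q₀ (hb q₀ hq₀)
    have h5 := htau f hfh
    unfold tauC at h5
    rw [Finsupp.linearCombination_apply, Finsupp.sum, Finset.sum_eq_single_of_mem q₀ hq₀] at h5
    · obtain ⟨y, hy, h1y, hqy, -, hzy⟩ := fib_points hg hgk hzg h1 hz3 hfin (hb q₀ hq₀)
      have hyF : aeval y F = 0 := zero_of_fib hg hF hzg hzF hy (hqy ▸ hb q₀ hq₀)
      have h6 : tau F D₁ D₂ f q₀ ≠ 0 := by
        rw [hqy, V.tau_mul hd hsm hFL h₁ h₂ hy h1y hyF hfh]
        refine mul_ne_zero ?_ (V.tau_ne_of_alg hd hsm hFL h₁ h₂ hz hy h1 h1y hzF hyF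
          (fun i => clo_mono (adj_le (hkL.trans (le_adj _ _)) (subset_adj _ _)) (hzy i)) hne)
        obtain ⟨u, hu⟩ := Projectivization.exists_smul_eq_mk_rep ℂ y hy
        intro h7
        apply hf0
        rw [hqy, ← hu, aeval_scale hfh (z := u • y) (a := (u : ℂ)) (w := y)
          (fun i => rfl), h7, mul_zero]
      rw [Rat.smul_def] at h5
      rcases mul_eq_zero.1 h5 with h7 | h7
      · exact (Finsupp.mem_support_iff.1 hq₀) (by exact_mod_cast h7)
      · exact h6 h7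
    · intro q hq hne'
      obtain ⟨y, hy, h1y, hqy, -, -⟩ := fib_points hg hgk hzg h1 hz3 hfin (hb q hq)
      have hyF : aeval y F = 0 := zero_of_fib hg hF hzg hzF hy (hqy ▸ hb q hq)
      have h6 : aeval y f = 0 := by
        have h7 := hfq q (hb q hq) hne'
        obtain ⟨u, hu⟩ := Projectivization.exists_smul_eq_mk_rep ℂ y hy
        rw [hqy, ← hu, aeval_scale hfh (z := u • y) (a := (u : ℂ)) (w := y)
          (fun i => rfl)] at h7
        exact (mul_eq_zero.1 h7).resolve_left (pow_ne_zero _ u.ne_zero)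
      rw [hqy, V.tau_mul hd hsm hFL h₁ h₂ hy h1y hyF hfh, h6, zero_mul, smul_zero]
  rw [hb0, sub_zero] at hf
  have hall : ∀ q ∈ Gen (adj k (Set.range a)) F, α q - c • hL (Zer g) F - v ∈ ratQ F := by
    intro q hq
    obtain ⟨σ, hσ, hσp⟩ := gen_conj hd hsm _ hFK hp hq
    have h2 := actC_ratQ hsm.hom hFK hσ hf
    rwa [map_sub, map_sub, map_smul, actC_hL hsm.hom hFK hg hgK hσ, hvK σ hσ, ← he σ hσ _ hp,
      hσp] at h2
  intro p' hp' q' hq'
  have h3 := (ratQ F).sub_mem (hall p' hp') (hall q' hq')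
  rwa [sub_sub_sub_cancel_right, sub_sub_sub_cancel_right] at h3

/-- the field `s1t` of the system -/
theorem s1tW (hd : 4 ≤ d) (hg : ∀ i, (g i).IsHomogeneous d) {k : Fl} [Countable k]
    (hgk : ∀ i, Coef k (g i))
    {W : MvPolynomial (Fin 4) ℂ} (hW : W ≠ 0) (hsep : ∀ z, aeval z W ≠ 0 → Sep g (d - 4) z)
    (ha : AlgebraicIndependent k a) {F : MvPolynomial (Fin 4) ℂ} (hF : F = ∑ i, C (a i) * g i)
    (hsm : IsSmoothForm F d)
    {n : ℕ} (t : Fin n → ℂ) (ht : AlgebraicIndependent (adj k (Set.range a)) t) (α : PP → Cy)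
    (hα : ∀ p ∈ Gen (adj (adj k (Set.range a)) (Set.range t)) F,
      α p ∈ TZ (adj (adj k (Set.range a)) (Set.range t)) F d)
    (he : ∀ σ ∈ Fix (adj (adj k (Set.range a)) (Set.range t)),
      ∀ p ∈ Gen (adj (adj k (Set.range a)) (Set.range t)) F, α (act σ p) = actC σ (α p)) :
    ∀ p ∈ Gen (adj (adj k (Set.range a)) (Set.range t)) F,
      ∀ q ∈ Gen (adj (adj k (Set.range a)) (Set.range t)) F, α p - α q ∈ ratQ F := by
  have hc : Countable (Set.range t) := (Set.countable_range t).to_subtype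
  have e1 : adj (adj k (Set.range a)) (Set.range t) = adj (adj k (Set.range t)) (Set.range a) := by
    rw [adj_adj, adj_adj, Set.union_comm]
  rw [e1] at hα he ⊢
  exact s1W hd hg (fun i => (hgk i).mono (le_adj _ _)) hW hsep (V.ind_adjV ha ht) hF hsm hα he

end Pool.Agent.VGS.W
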