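import Pool.Agent.VGW.SmoothZ

/-! Module SmoothG: the very general members of a linear system of forms of degree `d` whose common
zeros form a curve with planar singularities are smooth; systems which contain the products `x_i h_j`
separate the points off the common zeros. -/

set_option autoImplicit false

open scoped LinearAlgebra.Projectivization
open MvPolynomial

namespace Pool.Agent.VGS.W

open Pool.Agent.LowDeg (surf IsSmoothForm)

/-- derivations over `L` with given values on an algebraically independent family -/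
private theorem exists_kills' {ι : Type} {a : ι → ℂ} {L : Fl} (ha : AlgebraicIndependent L a)
    (f : ι → ℂ) : ∃ D : Derivation ℤ ℂ ℂ, Kills L D ∧ ∀ i, D (a i) = f i := by
  classical
  have hinj : Function.Injective a := ha.injective
  have hs : AlgebraicIndepOn L id (Set.range a) := ha.to_subtype_range
  obtain ⟨t, hst, ht⟩ := exists_isTranscendenceBasis_superset hs
  obtain ⟨D, hD⟩ := tau_exists_der ht (fun w => if h : ∃ i, a i = (w : ℂ) then f h.choose else 0)
  refine ⟨D.restrictScalars ℤ, fun c hc => ?_, fun i => ?_⟩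
  · exact D.map_algebraMap ⟨c, hc⟩
  · have h1 := hD ⟨a i, hst ⟨i, rfl⟩⟩
    have h2 : ∃ j, a j = a i := ⟨i, rfl⟩
    rw [dif_pos h2, hinj h2.choose_spec] at h1
    exact h1

private theorem kills_clo' {L : Fl} {D : Derivation ℤ ℂ ℂ} (h : Kills L D) : Kills (clo L) D := by
  intro x hx
  have hx' : IsAlgebraic L.toSubfield x := mem_clo.1 hx
  let D' : Derivation L.toSubfield ℂ ℂ := Derivation.mk'
    { toFun := D
      map_add' := map_add D
      map_smul' := fun a x => by
        rw [Algebra.smul_def, D.leibniz]
        have ha : D (algebraMap L.toSubfield ℂ a) = 0 := h a a.2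
        rw [ha, smul_zero, add_zero]
        rfl } (fun a b => D.leibniz a b)
  have hint : IsIntegral L.toSubfield x := hx'.isIntegral
  have h1 : D' (Polynomial.aeval x (minpoly L.toSubfield x)) =
      Polynomial.aeval x (Polynomial.derivative (minpoly L.toSubfield x)) • D' x :=
    D'.map_aeval _ _
  rw [minpoly.aeval, map_zero] at h1
  have h2 : Polynomial.aeval x (Polynomial.derivative (minpoly L.toSubfield x)) ≠ 0 :=
    (minpoly.irreducible hint).separable.aeval_derivative_ne_zero (minpoly.aeval _ _)
  rcases smul_eq_zero.mp h1.symm with h3 | h3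
  · exact absurd h3 h2
  · exact h3

/-- two vectors in the common kernel of three independent functionals on `ℂ⁴` are dependent -/
private theorem dep_of_ker {G G' w₁ w₂ y : Fin 4 → ℂ} {l : Fin 4}
    (hGG : LinearIndependent ℂ ![G, G']) (hy : y l = 1) (hGy : ∑ m, G m * y m = 0)
    (hGy' : ∑ m, G' m * y m = 0) (h1 : ∑ m, G m * w₁ m = 0) (h2 : ∑ m, G m * w₂ m = 0)
    (h1' : ∑ m, G' m * w₁ m = 0) (h2' : ∑ m, G' m * w₂ m = 0) (hl1 : w₁ l = 0)
    (hl2 : w₂ l = 0) : ∃ s t : ℂ, s • w₁ + t • w₂ = 0 ∧ ¬(s = 0 ∧ t = 0) := by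
  classical
  by_contra hcon
  push Not at hcon
  have hli : LinearIndependent ℂ ![w₁, w₂] := LinearIndependent.pair_iff.2 hcon
  let e : Fin 4 → ℂ := Pi.single l 1
  have he : ∀ v : Fin 4 → ℂ, ∑ m, e m * v m = v l := by
    intro v
    rw [Finset.sum_eq_single l]
    · simp [e]
    · intro b _ hb
      simp [e, hb]
    · intro h
      exact absurd (Finset.mem_univ _) h
  have hrows : LinearIndependent ℂ (Fin.cons e ![G, G'] : Fin 3 → Fin 4 → ℂ) := by
    refine linearIndependent_finCons.2 ⟨hGG, fun hmem => ?_⟩
    have hr : Set.range ![G, G'] = {G, G'} := by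
      rw [Matrix.range_cons, Matrix.range_cons, Matrix.range_empty, Set.union_empty]
      rfl
    rw [hr, Submodule.mem_span_pair] at hmem
    obtain ⟨s, t, hst⟩ := hmem
    have h3 := he y
    rw [← hst, hy] at h3
    have h4 : ∑ m, (s • G + t • G') m * y m = s * ∑ m, G m * y m + t * ∑ m, G' m * y m := by
      rw [Finset.mul_sum, Finset.mul_sum, ← Finset.sum_add_distrib]
      refine Finset.sum_congr rfl fun m _ => ?_
      simp only [Pi.add_apply, Pi.smul_apply, smul_eq_mul]
      ring
    rw [h4, hGy, hGy', mul_zero, mul_zero, add_zero] at h3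
    exact zero_ne_one h3
  let A : Matrix (Fin 3) (Fin 4) ℂ := Matrix.of ![e, G, G']
  have hA : A.rank = 3 := by
    have h3 := LinearIndependent.rank_matrix (M := A) hrows
    simpa using h3
  have h5 := LinearMap.finrank_range_add_finrank_ker A.mulVecLin
  have h6 : Module.finrank ℂ (LinearMap.range A.mulVecLin) = 3 := hA
  rw [h6, Module.finrank_fin_fun] at h5
  have hk : ∀ w : Fin 4 → ℂ, w l = 0 → ∑ m, G m * w m = 0 → ∑ m, G' m * w m = 0 →
      w ∈ LinearMap.ker A.mulVecLin := by
    intro w hw h7 h8
    rw [LinearMap.mem_ker, Matrix.mulVecLin_apply]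
    funext i
    fin_cases i
    · exact (he w).trans hw
    · exact h7
    · exact h8
  have h9 : LinearIndependent ℂ
      ![(⟨w₁, hk w₁ hl1 h1 h1'⟩ : LinearMap.ker A.mulVecLin), ⟨w₂, hk w₂ hl2 h2 h2'⟩] := by
    refine LinearIndependent.pair_iff.2 fun s t hst => hcon s t ?_
    exact congrArg Subtype.val hst
  have h10 := h9.fintype_card_le_finrank
  simp only [Fintype.card_fin] at h10
  omega

private theorem pair_of_minor {G G' : Fin 4 → ℂ} {m m' : Fin 4}
    (h : G m * G' m' - G m' * G' m ≠ 0) : LinearIndependent ℂ ![G, G'] := by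
  refine LinearIndependent.pair_iff.2 fun s t hst => ?_
  have h1 : s * G m + t * G' m = 0 := congrFun hst m
  have h2 : s * G m' + t * G' m' = 0 := congrFun hst m'
  constructor
  · by_contra hs
    apply h
    apply mul_left_cancel₀ hs
    linear_combination G' m' * h1 - G' m * h2
  · by_contra ht
    apply h
    apply mul_left_cancel₀ ht
    linear_combination G m * h2 - G m' * h1


variable {ι : Type} {g : ι → MvPolynomial (Fin 4) ℂ} {d : ℕ}

/-- Let `Z` be the scheme of the common zeros of the forms `g i`, a curve with planar singularities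
(or empty). Then the very general member `∑ a_i g_i = 0` of the linear system is smooth. -/
theorem smoothG [Fintype ι] (hg : ∀ i, (g i).IsHomogeneous d) {L : Fl} [Countable L]
    (hL : ∀ i, Coef L (g i)) (hZ : PlanarCurve g) {a : ι → ℂ} (ha : AlgebraicIndependent L a) :
    IsSmoothForm (∑ i, C (a i) * g i) d := by
  classical
  have hhom : (∑ i, C (a i) * g i).IsHomogeneous d := by
    refine IsHomogeneous.sum _ _ _ fun i _ => ?_
    have h1 := (isHomogeneous_C (Fin 4) (a i)).mul (hg i)
    rwa [zero_add] at h1
  set F : MvPolynomial (Fin 4) ℂ := ∑ i, C (a i) * g i with hF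
  refine ⟨hhom, fun z hz h0 => ?_⟩
  by_contra hcon
  push Not at hcon
  obtain ⟨l, hl⟩ : ∃ l, z l ≠ 0 := by
    by_contra hall
    push Not at hall
    exact hz (funext hall)
  -- normalization
  let y : Fin 4 → ℂ := fun i => (z l)⁻¹ * z i
  have hyl : y l = 1 := inv_mul_cancel₀ hl
  have hy0 : aeval y F = 0 := by
    rw [aeval_scale hhom (fun _ => rfl), h0, mul_zero]
  have hyp : ∀ m, aeval y (pderiv m F) = 0 := by
    intro m
    rw [aeval_scale hhom.pderiv (fun _ => rfl), hcon m, mul_zero]
  have hz0 : ∀ i, aeval y (g i) = 0 := fun i => sing_base hL ha hy0 hyp i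
  have hyne : y ≠ 0 := fun h1 => one_ne_zero (hyl.symm.trans (congrFun h1 l))
  have hrel : ∀ m, ∑ i, a i * aeval y (pderiv m (g i)) = 0 := by
    intro m
    rw [← hyp m, hF, map_sum, map_sum]
    refine Finset.sum_congr rfl fun i _ => ?_
    rw [pderiv_C_mul, map_mul, aeval_C]
    rfl
  -- a derivation over `L` which is zero on the coordinates of `y`
  have hkey : ∀ D : Derivation ℤ ℂ ℂ, Kills L D → (∀ m, D (y m) = 0) → ∀ m,
      ∑ i, aeval y (pderiv m (g i)) * D (a i) = 0 := by
    intro D hDL hDy m
    have hDP : ∀ m j, D (aeval y (pderiv m (g j))) = 0 := by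
      intro m j
      rw [der_aeval ((hL j).pderiv m) hDL, dFc]
      exact Finset.sum_eq_zero fun i _ => by rw [hDy i, zero_mul]
    have h1 := congrArg D (hrel m)
    rw [map_zero, map_sum] at h1
    rw [← h1]
    refine Finset.sum_congr rfl fun i _ => ?_
    rw [Derivation.leibniz, hDP]
    simp only [smul_eq_mul, mul_zero, zero_add]
  by_cases hmin : ∃ j j' m m',
      aeval y (pderiv m (g j) * pderiv m' (g j') - pderiv m' (g j) * pderiv m (g j')) ≠ 0
  · obtain ⟨j, j', m₁, m₂, hmm⟩ := hmin
    rw [map_sub, map_mul, map_mul] at hmm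
    have hjj : LinearIndependent ℂ
        ![fun m => aeval y (pderiv m (g j)), fun m => aeval y (pderiv m (g j'))] :=
      pair_of_minor (m := m₁) (m' := m₂) hmm
    -- Euler
    have heul : ∀ j, ∑ m, aeval y (pderiv m (g j)) * y m = 0 := by
      intro j
      have h1 := congrArg (aeval y) (hg j).sum_X_mul_pderiv
      rw [map_sum, map_nsmul, hz0 j, smul_zero] at h1
      rw [← h1]
      refine Finset.sum_congr rfl fun m _ => ?_
      rw [map_mul, aeval_X, mul_comm]
    obtain ⟨D₁, hD₁L, hD₁⟩ := exists_kills' ha (fun i => if i = j then 1 else 0)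
    obtain ⟨D₂, hD₂L, hD₂⟩ := exists_kills' ha (fun i => if i = j' then 1 else 0)
    have htan : ∀ D : Derivation ℤ ℂ ℂ, Kills L D → ∀ j,
        ∑ m, aeval y (pderiv m (g j)) * D (y m) = 0 := by
      intro D hD j
      have h1 := der_aeval (hL j) hD (z := y)
      rw [hz0 j, map_zero] at h1
      rw [h1]
      exact Finset.sum_congr rfl fun m _ => mul_comm _ _
    have hDl : ∀ D : Derivation ℤ ℂ ℂ, D (y l) = 0 := by
      intro D
      rw [hyl, Derivation.map_one_eq_zero]
    obtain ⟨s, t, hst, hne0⟩ := dep_of_ker hjj hyl (heul j) (heul j')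
      (htan D₁ hD₁L j) (htan D₂ hD₂L j) (htan D₁ hD₁L j') (htan D₂ hD₂L j') (hDl D₁) (hDl D₂)
    -- the combination
    let D : Derivation ℤ ℂ ℂ := s • D₁ + t • D₂
    have hDv : ∀ x, D x = s * D₁ x + t * D₂ x := fun x => rfl
    have hDL : Kills L D := fun x hx => by
      rw [hDv, hD₁L x hx, hD₂L x hx, mul_zero, mul_zero, add_zero]
    have hDy : ∀ m, D (y m) = 0 := fun m => congrFun hst m
    have hfin : ∀ m, s * aeval y (pderiv m (g j)) + t * aeval y (pderiv m (g j')) = 0 := by
      intro m
      have h1 := hkey D hDL hDy m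
      have h2 : ∀ i, aeval y (pderiv m (g i)) * D (a i) =
          (if i = j then s * aeval y (pderiv m (g i)) else 0) +
            (if i = j' then t * aeval y (pderiv m (g i)) else 0) := by
        intro i
        rw [hDv, hD₁, hD₂]
        split_ifs <;> ring
      rw [Finset.sum_congr rfl fun i _ => h2 i, Finset.sum_add_distrib,
        Finset.sum_ite_eq' Finset.univ j, Finset.sum_ite_eq' Finset.univ j',
        if_pos (Finset.mem_univ _), if_pos (Finset.mem_univ _)] at h1
      exact h1
    exact hne0 (LinearIndependent.pair_iff.1 hjj s t (funext hfin))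
  · push Not at hmin
    -- `y` is one of finitely many points, so it is over `clo L`
    have hover : Over (clo L) (Projectivization.mk ℂ y hyne) := by
      refine over_clo_of_finite L (hZ.two.subset ?_)
      rintro q ⟨σ, hσ, rfl⟩
      have hσy := map_ne_zero' σ hyne
      rw [act_mk σ y hyne hσy]
      refine ⟨fun j => ?_, fun j j' m m' => ?_⟩
      · rw [mem_zero_mk (hg j) hσy, aeval_fix (hL j) hσ, hz0 j, map_zero]
      · have e1 : (pderiv m (g j) * pderiv m' (g j') - pderiv m' (g j) *
            pderiv m (g j')).IsHomogeneous (d - 1 + (d - 1)) :=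
          ((hg j).pderiv.mul (hg j').pderiv).sub ((hg j).pderiv.mul (hg j').pderiv)
        rw [mem_zero_mk e1 hσy, map_sub, map_mul, map_mul, aeval_fix ((hL j).pderiv m) hσ,
          aeval_fix ((hL j').pderiv m') hσ, aeval_fix ((hL j).pderiv m') hσ,
          aeval_fix ((hL j').pderiv m) hσ]
        have h1 := hmin j j' m m'
        rw [map_sub, map_mul, map_mul] at h1
        have h2 := congrArg σ h1
        rwa [map_sub, map_mul, map_mul, map_zero] at h2
    have hyclo := (over_mk hyne hyl).1 hover
    obtain ⟨j, m, hjm⟩ := hZ.one y hyne hz0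
    obtain ⟨D, hDL, hD⟩ := exists_kills' ha (fun i => if i = j then 1 else 0)
    have hDc := kills_clo' hDL
    have h1 := hkey D hDL (fun m => hDc _ (hyclo m)) m
    have h2 : ∀ i, aeval y (pderiv m (g i)) * D (a i) =
        if i = j then aeval y (pderiv m (g i)) else 0 := by
      intro i
      rw [hD]
      split_ifs <;> ring
    rw [Finset.sum_congr rfl fun i _ => h2 i, Finset.sum_ite_eq' Finset.univ j,
      if_pos (Finset.mem_univ _)] at h1
    exact hjm h1

/-- If the span of the `g i` contains all products `x_l h_j`, then the fibres of the map defined by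
the `g i` through the points where some `h_j` is not zero are points. -/
theorem sepG {J : Type} (h : J → MvPolynomial (Fin 4) ℂ)
    (hspan : ∀ (l : Fin 4) (j : J), X l * h j ∈ Submodule.span ℂ (Set.range g)) (n : ℕ)
    {z : Fin 4 → ℂ} (hz : z ≠ 0) (hzh : ∃ j, aeval z (h j) ≠ 0) : Sep g n z := by
  obtain ⟨j₀, hzj⟩ := hzh
  obtain ⟨l, hl⟩ : ∃ l, z l ≠ 0 := by
    by_contra hall
    push Not at hall
    exact hz (funext hall)
  have hev : ∀ (v : Fin 4 → ℂ) (i : Fin 4) (j : J),
      aeval v (X i * h j) = v i * aeval v (h j) := by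
    intro v i j
    rw [map_mul, aeval_X]
  have key : ∀ q ∈ Fib g z, ∃ c : ℂ, c ≠ 0 ∧ ∀ i, q.rep i = c * z i := by
    rintro q ⟨⟨i₁, hi₁⟩, hqz⟩
    -- the relation for all elements of the span
    have hG : ∀ G ∈ Submodule.span ℂ (Set.range g),
        aeval q.rep G * aeval z (g i₁) = aeval q.rep (g i₁) * aeval z G := by
      intro G hG
      induction hG using Submodule.span_induction with
      | mem x hx =>
        obtain ⟨i, rfl⟩ := hx
        exact hqz i i₁
      | zero => rw [map_zero, map_zero, zero_mul, mul_zero]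
      | add x y _ _ hx hy =>
        rw [map_add, map_add, add_mul, mul_add, hx, hy]
      | smul c x _ hx =>
        rw [map_smul, map_smul, smul_eq_mul, smul_eq_mul]
        linear_combination c * hx
    have hz1 : aeval z (g i₁) ≠ 0 := by
      intro h0
      have h1 := hG _ (hspan l j₀)
      rw [h0, mul_zero, hev] at h1
      exact (mul_ne_zero hi₁ (mul_ne_zero hl hzj)) h1.symm
    have hprop : ∀ i, q.rep i * aeval q.rep (h j₀) * aeval z (g i₁) =
        aeval q.rep (g i₁) * (z i * aeval z (h j₀)) := by
      intro i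
      have h1 := hG _ (hspan i j₀)
      rwa [hev, hev] at h1
    have hqj : aeval q.rep (h j₀) ≠ 0 := by
      intro h0
      have h1 := hprop l
      rw [h0, mul_zero, zero_mul] at h1
      exact (mul_ne_zero hi₁ (mul_ne_zero hl hzj)) h1.symm
    refine ⟨aeval q.rep (g i₁) * aeval z (h j₀) / (aeval q.rep (h j₀) * aeval z (g i₁)),
      div_ne_zero (mul_ne_zero hi₁ hzj) (mul_ne_zero hqj hz1), fun i => ?_⟩
    rw [div_mul_eq_mul_div, eq_div_iff (mul_ne_zero hqj hz1)]
    linear_combination hprop i
  have heq : ∀ q ∈ Fib g z, q = Projectivization.mk ℂ z hz := by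
    intro q hq
    obtain ⟨c, hc, hcz⟩ := key q hq
    rw [← Projectivization.mk_rep q, Projectivization.mk_eq_mk_iff']
    exact ⟨c, funext fun i => (hcz i).symm⟩
  intro q hq
  obtain ⟨c, hc, hcz⟩ := key q hq
  refine ⟨X l ^ n, isHomogeneous_X_pow l n, ?_, fun q' hq' hne => absurd ?_ hne⟩
  · rw [map_pow, aeval_X, hcz l]
    exact pow_ne_zero _ (mul_ne_zero hc hl)
  · rw [heq q hq, heq q' hq']

/-- It is enough that the span of the `g i` contains `x₀ h, x₁ h, x₂ h, x₃ h` for one `h ≠ 0`: then
the map defined by the `g i` is injective on an open set. -/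
theorem sepW {h : MvPolynomial (Fin 4) ℂ} (hh : h ≠ 0)
    (hspan : ∀ l : Fin 4, X l * h ∈ Submodule.span ℂ (Set.range g)) (n : ℕ) :
    ∃ W : MvPolynomial (Fin 4) ℂ, W ≠ 0 ∧ ∀ z, aeval z W ≠ 0 → Sep g n z := by
  refine ⟨X 0 * h, mul_ne_zero (X_ne_zero 0) hh, fun z hz => ?_⟩
  rw [map_mul, aeval_X] at hz
  refine sepG (J := Unit) (fun _ => h) (fun l _ => hspan l) n ?_ ⟨(), right_ne_zero_of_mul hz⟩
  intro h0
  exact left_ne_zero_of_mul hz (congrFun h0 0)

/-- If the forms `h j` define a curve with planar singularities and the span of the `g i` contains all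
products `x_l h_j`, then the `g i` define a curve with planar singularities (the same one, if they
vanish on it). -/
theorem planar_of_span {J : Type} {h : J → MvPolynomial (Fin 4) ℂ}
    (hspan : ∀ (l : Fin 4) (j : J), X l * h j ∈ Submodule.span ℂ (Set.range g))
    (hZ : PlanarCurve h) : PlanarCurve g := by
  classical
  -- the values and the differentials of the elements of the span
  have hval : ∀ z : Fin 4 → ℂ, (∀ i, aeval z (g i) = 0) →
      ∀ G ∈ Submodule.span ℂ (Set.range g), aeval z G = 0 := by
    intro z hz G hG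
    induction hG using Submodule.span_induction with
    | mem x hx =>
      obtain ⟨i, rfl⟩ := hx
      exact hz i
    | zero => exact map_zero _
    | add x y _ _ hx hy => rw [map_add, hx, hy, add_zero]
    | smul c x _ hx => rw [map_smul, hx, smul_zero]
  have hh0 : ∀ z : Fin 4 → ℂ, z ≠ 0 → (∀ i, aeval z (g i) = 0) → ∀ j, aeval z (h j) = 0 := by
    intro z hz h0 j
    obtain ⟨l, hl⟩ : ∃ l, z l ≠ 0 := by
      by_contra hall
      push Not at hall
      exact hz (funext hall)
    have h1 := hval z h0 _ (hspan l j)
    rw [map_mul, aeval_X] at h1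
    exact (mul_eq_zero.1 h1).resolve_left hl
  have hder : ∀ (z : Fin 4 → ℂ) (l m : Fin 4) (j : J), aeval z (h j) = 0 →
      aeval z (pderiv m (X l * h j)) = z l * aeval z (pderiv m (h j)) := by
    intro z l m j h0
    rw [Derivation.leibniz, map_add, smul_eq_mul, smul_eq_mul, map_mul, map_mul, aeval_X, h0,
      zero_mul, add_zero]
  refine ⟨fun z hz h0 => ?_, ?_⟩
  · by_contra hcon
    push Not at hcon
    obtain ⟨l, hl⟩ : ∃ l, z l ≠ 0 := by
      by_contra hall
      push Not at hall
      exact hz (funext hall)
    obtain ⟨j, m, hjm⟩ := hZ.one z hz (hh0 z hz h0)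
    have h1 : ∀ G ∈ Submodule.span ℂ (Set.range g), aeval z (pderiv m G) = 0 := by
      intro G hG
      induction hG using Submodule.span_induction with
      | mem x hx =>
        obtain ⟨i, rfl⟩ := hx
        exact hcon i m
      | zero => rw [map_zero, map_zero]
      | add x y _ _ hx hy => rw [map_add, map_add, hx, hy, add_zero]
      | smul c x _ hx => rw [Derivation.map_smul, map_smul, hx, smul_zero]
    have h2 := h1 _ (hspan l j)
    rw [hder z l m j (hh0 z hz h0 j)] at h2
    exact (mul_ne_zero hl hjm) h2
  · refine hZ.two.subset ?_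
    rintro q ⟨h0, hmin⟩
    have hq0 := hh0 q.rep q.rep_nonzero h0
    refine ⟨hq0, fun j j' m m' => ?_⟩
    obtain ⟨l, hl⟩ : ∃ l, q.rep l ≠ 0 := by
      by_contra hall
      push Not at hall
      exact q.rep_nonzero (funext hall)
    have h1 : ∀ G ∈ Submodule.span ℂ (Set.range g), ∀ i,
        aeval q.rep (pderiv m G) * aeval q.rep (pderiv m' (g i)) -
          aeval q.rep (pderiv m' G) * aeval q.rep (pderiv m (g i)) = 0 := by
      intro G hG i
      induction hG using Submodule.span_induction with
      | mem x hx =>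
        obtain ⟨i', rfl⟩ := hx
        have h2 := hmin i' i m m'
        rwa [map_sub, map_mul, map_mul] at h2
      | zero => simp only [map_zero, zero_mul, sub_zero]
      | add x y _ _ hx hy =>
        simp only [map_add]
        linear_combination hx + hy
      | smul c x _ hx =>
        simp only [Derivation.map_smul, map_smul, smul_eq_mul]
        linear_combination c * hx
    have h2 : ∀ G ∈ Submodule.span ℂ (Set.range g), ∀ G' ∈ Submodule.span ℂ (Set.range g),
        aeval q.rep (pderiv m G) * aeval q.rep (pderiv m' G') -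
          aeval q.rep (pderiv m' G) * aeval q.rep (pderiv m G') = 0 := by
      intro G hG G' hG'
      induction hG' using Submodule.span_induction with
      | mem x hx =>
        obtain ⟨i, rfl⟩ := hx
        exact h1 G hG i
      | zero => simp only [map_zero, mul_zero, sub_zero]
      | add x y _ _ hx hy =>
        simp only [map_add]
        linear_combination hx + hy
      | smul c x _ hx =>
        simp only [Derivation.map_smul, map_smul, smul_eq_mul]
        linear_combination c * hx
    have h3 := h2 _ (hspan l j) _ (hspan l j')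
    rw [hder _ l m j (hq0 j), hder _ l m' j' (hq0 j'), hder _ l m' j (hq0 j),
      hder _ l m j' (hq0 j')] at h3
    rw [map_sub, map_mul, map_mul]
    apply mul_left_cancel₀ (mul_ne_zero hl hl)
    linear_combination h3

end Pool.Agent.VGS.W
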