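import Pool.Agent.VGW.PlanarDefs

/-! Module SmoothZ: the very general surfaces of degree `n + 1` through a curve with planar
singularities which is cut out by forms of degree `n` are smooth. -/

set_option autoImplicit false

open scoped LinearAlgebra.Projectivization
open MvPolynomial

namespace Pool.Agent.VGS.W

open Pool.Agent.LowDeg (surf IsSmoothForm)

/-- derivations over `L` with given values on an algebraically independent family -/
private theorem exists_kills' {ι : Type} {a : ι → ℂ} {L : Fl} (ha : AlgebraicIndependent L a)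
    (f : ι → ℂ) : ∃ D : Derivation ℤ ℂ ℂ, Kills L D ∧ ∀ i, D (a i) = f i := by
  classical
  have hinj : Function.Injective a := ha.injective
  have hs : AlgebraicIndepOn L id (Set.range a) := ha.to_subtype_range
  obtain ⟨t, hst, ht⟩ := exists_isTranscendenceBasis_superset hs
  obtain ⟨D, hD⟩ := tau_exists_der ht (fun w => if h : ∃ i, a i = (w : ℂ) then f h.choose else 0)
  refine ⟨D.restrictScalars ℤ, fun c hc => ?_, fun i => ?_⟩
  · exact D.map_algebraMap ⟨c, hc⟩
  · have h1 := hD ⟨a i, hst ⟨i, rfl⟩⟩
    have h2 : ∃ j, a j = a i := ⟨i, rfl⟩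
    rw [dif_pos h2, hinj h2.choose_spec] at h1
    exact h1

/-- a singular point of `∑ a_i g_i`, the `a_i` independent over a field of definition of the
`g_i`, is a common zero of the `g_i` -/
theorem sing_base {ι : Type} [Fintype ι] {g : ι → MvPolynomial (Fin 4) ℂ} {a : ι → ℂ} {L : Fl}
    (hgL : ∀ i, Coef L (g i)) (ha : AlgebraicIndependent L a) {z : Fin 4 → ℂ}
    (h0 : aeval z (∑ i, C (a i) * g i) = 0)
    (hcon : ∀ l, aeval z (pderiv l (∑ i, C (a i) * g i)) = 0) (i₀ : ι) :
    aeval z (g i₀) = 0 := by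
  classical
  obtain ⟨D, hDL, hD⟩ := exists_kills' ha (fun i => if i = i₀ then 1 else 0)
  have h1 : ∑ i, a i * aeval z (g i) = 0 := by
    rw [← h0, map_sum]
    refine Finset.sum_congr rfl fun i _ => ?_
    rw [map_mul, aeval_C]
    rfl
  have h2 : ∀ l, ∑ i, a i * aeval z (pderiv l (g i)) = 0 := by
    intro l
    rw [← hcon l, map_sum, map_sum]
    refine Finset.sum_congr rfl fun i _ => ?_
    rw [pderiv_C_mul, map_mul, aeval_C]
    rfl
  have h3 : D (∑ i, a i * aeval z (g i)) = aeval z (g i₀) := by
    rw [map_sum]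
    have h4 : ∀ i, D (a i * aeval z (g i)) =
        (∑ l, D (z l) * (a i * aeval z (pderiv l (g i)))) +
          (if i = i₀ then aeval z (g i) else 0) := by
      intro i
      rw [Derivation.leibniz, hD, der_aeval (hgL i) hDL, smul_eq_mul, smul_eq_mul, dFc,
        Finset.mul_sum]
      congr 1
      · refine Finset.sum_congr rfl fun l _ => by ring
      · split_ifs <;> simp
    rw [Finset.sum_congr rfl fun i _ => h4 i, Finset.sum_add_distrib, Finset.sum_comm]
    have h5 : ∀ l, ∑ i, D (z l) * (a i * aeval z (pderiv l (g i))) = 0 := by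
      intro l
      rw [← Finset.mul_sum, h2 l, mul_zero]
    rw [Finset.sum_congr rfl fun l _ => h5 l, Finset.sum_const_zero, zero_add,
      Finset.sum_ite_eq' Finset.univ i₀, if_pos (Finset.mem_univ _)]
  rw [h1, map_zero] at h3
  exact h3.symm

private theorem kills_clo' {L : Fl} {D : Derivation ℤ ℂ ℂ} (h : Kills L D) : Kills (clo L) D := by
  intro x hx
  have hx' : IsAlgebraic L.toSubfield x := mem_clo.1 hx
  let D' : Derivation L.toSubfield ℂ ℂ := Derivation.mk'
    { toFun := D
      map_add' := map_add D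
      map_smul' := fun a x => by
        rw [Algebra.smul_def, D.leibniz]
        have ha : D (algebraMap L.toSubfield ℂ a) = 0 := h a a.2
        rw [ha, smul_zero, add_zero]
        rfl } (fun a b => D.leibniz a b)
  have hint : IsIntegral L.toSubfield x := hx'.isIntegral
  have h1 : D' (Polynomial.aeval x (minpoly L.toSubfield x)) =
      Polynomial.aeval x (Polynomial.derivative (minpoly L.toSubfield x)) • D' x :=
    D'.map_aeval _ _
  rw [minpoly.aeval, map_zero] at h1
  have h2 : Polynomial.aeval x (Polynomial.derivative (minpoly L.toSubfield x)) ≠ 0 :=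
    (minpoly.irreducible hint).separable.aeval_derivative_ne_zero (minpoly.aeval _ _)
  rcases smul_eq_zero.mp h1.symm with h3 | h3
  · exact absurd h3 h2
  · exact h3

/-- two vectors in the common kernel of three independent functionals on `ℂ⁴` are dependent -/
private theorem dep_of_ker {G G' w₁ w₂ y : Fin 4 → ℂ} {l : Fin 4}
    (hGG : LinearIndependent ℂ ![G, G']) (hy : y l = 1) (hGy : ∑ m, G m * y m = 0)
    (hGy' : ∑ m, G' m * y m = 0) (h1 : ∑ m, G m * w₁ m = 0) (h2 : ∑ m, G m * w₂ m = 0)
    (h1' : ∑ m, G' m * w₁ m = 0) (h2' : ∑ m, G' m * w₂ m = 0) (hl1 : w₁ l = 0)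
    (hl2 : w₂ l = 0) : ∃ s t : ℂ, s • w₁ + t • w₂ = 0 ∧ ¬(s = 0 ∧ t = 0) := by
  classical
  by_contra hcon
  push Not at hcon
  have hli : LinearIndependent ℂ ![w₁, w₂] := LinearIndependent.pair_iff.2 hcon
  let e : Fin 4 → ℂ := Pi.single l 1
  have he : ∀ v : Fin 4 → ℂ, ∑ m, e m * v m = v l := by
    intro v
    rw [Finset.sum_eq_single l]
    · simp [e]
    · intro b _ hb
      simp [e, hb]
    · intro h
      exact absurd (Finset.mem_univ _) h
  have hrows : LinearIndependent ℂ (Fin.cons e ![G, G'] : Fin 3 → Fin 4 → ℂ) := by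
    refine linearIndependent_finCons.2 ⟨hGG, fun hmem => ?_⟩
    have hr : Set.range ![G, G'] = {G, G'} := by
      rw [Matrix.range_cons, Matrix.range_cons, Matrix.range_empty, Set.union_empty]
      rfl
    rw [hr, Submodule.mem_span_pair] at hmem
    obtain ⟨s, t, hst⟩ := hmem
    have h3 := he y
    rw [← hst, hy] at h3
    have h4 : ∑ m, (s • G + t • G') m * y m = s * ∑ m, G m * y m + t * ∑ m, G' m * y m := by
      rw [Finset.mul_sum, Finset.mul_sum, ← Finset.sum_add_distrib]
      refine Finset.sum_congr rfl fun m _ => ?_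
      simp only [Pi.add_apply, Pi.smul_apply, smul_eq_mul]
      ring
    rw [h4, hGy, hGy', mul_zero, mul_zero, add_zero] at h3
    exact zero_ne_one h3
  let A : Matrix (Fin 3) (Fin 4) ℂ := Matrix.of ![e, G, G']
  have hA : A.rank = 3 := by
    have h3 := LinearIndependent.rank_matrix (M := A) hrows
    simpa using h3
  have h5 := LinearMap.finrank_range_add_finrank_ker A.mulVecLin
  have h6 : Module.finrank ℂ (LinearMap.range A.mulVecLin) = 3 := hA
  rw [h6, Module.finrank_fin_fun] at h5
  have hk : ∀ w : Fin 4 → ℂ, w l = 0 → ∑ m, G m * w m = 0 → ∑ m, G' m * w m = 0 →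
      w ∈ LinearMap.ker A.mulVecLin := by
    intro w hw h7 h8
    rw [LinearMap.mem_ker, Matrix.mulVecLin_apply]
    funext i
    fin_cases i
    · exact (he w).trans hw
    · exact h7
    · exact h8
  have h9 : LinearIndependent ℂ
      ![(⟨w₁, hk w₁ hl1 h1 h1'⟩ : LinearMap.ker A.mulVecLin), ⟨w₂, hk w₂ hl2 h2 h2'⟩] := by
    refine LinearIndependent.pair_iff.2 fun s t hst => hcon s t ?_
    exact congrArg Subtype.val hst
  have h10 := h9.fintype_card_le_finrank
  simp only [Fintype.card_fin] at h10
  omega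

variable {J : Type} {h : J → MvPolynomial (Fin 4) ℂ} {n : ℕ}

/-- The products of the variables with the forms `h j`. -/
noncomputable def mulX (h : J → MvPolynomial (Fin 4) ℂ) : Fin 4 × J → MvPolynomial (Fin 4) ℂ :=
  fun p => X p.1 * h p.2

theorem mulX_hom (hh : ∀ j, (h j).IsHomogeneous n) (p : Fin 4 × J) :
    (mulX h p).IsHomogeneous (n + 1) := by
  have h1 := (isHomogeneous_X ℂ p.1).mul (hh p.2)
  rwa [add_comm 1 n] at h1

theorem mulX_coef {L : Fl} (hL : ∀ j, Coef L (h j)) (p : Fin 4 × J) : Coef L (mulX h p) := by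
  intro m
  rw [mulX, coeff_X_mul']
  split_ifs
  · exact hL p.2 _
  · exact L.zero_mem

/-- The forms `h j` are defined over a field of definition of the products `x_i h_j`. -/
theorem coef_of_mulX {L : Fl} (hL : ∀ p, Coef L (mulX h p)) (j : J) : Coef L (h j) := by
  intro m
  have h1 := hL (0, j) (m + Finsupp.single 0 1)
  rwa [mulX, add_comm, coeff_X_mul] at h1

private theorem pair_of_minor {G G' : Fin 4 → ℂ} {m m' : Fin 4}
    (h : G m * G' m' - G m' * G' m ≠ 0) : LinearIndependent ℂ ![G, G'] := by
  refine LinearIndependent.pair_iff.2 fun s t hst => ?_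
  have h1 : s * G m + t * G' m = 0 := congrFun hst m
  have h2 : s * G m' + t * G' m' = 0 := congrFun hst m'
  constructor
  · by_contra hs
    apply h
    apply mul_left_cancel₀ hs
    linear_combination G' m' * h1 - G' m * h2
  · by_contra ht
    apply h
    apply mul_left_cancel₀ ht
    linear_combination G m * h2 - G m' * h1

/-- Let `Z` be the scheme of the common zeros of the forms `h j` of degree `n`, a curve with planar
singularities. Then the very general surface `∑ a_ij x_i h_j = 0` through `Z` is smooth. -/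
theorem smoothP [Fintype J] (hh : ∀ j, (h j).IsHomogeneous n) {L : Fl} [Countable L]
    (hL : ∀ j, Coef L (h j)) (hZ : PlanarCurve h)
    {a : Fin 4 × J → ℂ} (ha : AlgebraicIndependent L a) :
    IsSmoothForm (∑ i, C (a i) * mulX h i) (n + 1) := by
  classical
  have hhom : (∑ i, C (a i) * mulX h i).IsHomogeneous (n + 1) := by
    refine IsHomogeneous.sum _ _ _ fun i _ => ?_
    have h1 := (isHomogeneous_C (Fin 4) (a i)).mul (mulX_hom hh i)
    rwa [zero_add] at h1
  set F : MvPolynomial (Fin 4) ℂ := ∑ i, C (a i) * mulX h i with hF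
  refine ⟨hhom, fun z hz h0 => ?_⟩
  by_contra hcon
  push Not at hcon
  obtain ⟨l, hl⟩ : ∃ l, z l ≠ 0 := by
    by_contra hall
    push Not at hall
    exact hz (funext hall)
  -- normalization
  let y : Fin 4 → ℂ := fun i => (z l)⁻¹ * z i
  have hyl : y l = 1 := inv_mul_cancel₀ hl
  have hy0 : aeval y F = 0 := by
    rw [aeval_scale hhom (fun _ => rfl), h0, mul_zero]
  have hyp : ∀ m, aeval y (pderiv m F) = 0 := by
    intro m
    rw [aeval_scale hhom.pderiv (fun _ => rfl), hcon m, mul_zero]
  have hbase := fun i => sing_base (mulX_coef hL) ha hy0 hyp i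
  have hz0 : ∀ j, aeval y (h j) = 0 := by
    intro j
    have h1 := hbase (l, j)
    rw [mulX, map_mul, aeval_X] at h1
    change y l * aeval y (h j) = 0 at h1
    rwa [hyl, one_mul] at h1
  have hyne : y ≠ 0 := fun h1 => one_ne_zero (hyl.symm.trans (congrFun h1 l))
  have hrel : ∀ m, ∑ i : Fin 4 × J, a i * (y i.1 * aeval y (pderiv m (h i.2))) = 0 := by
    intro m
    rw [← hyp m, hF, map_sum, map_sum]
    refine Finset.sum_congr rfl fun i _ => ?_
    rw [pderiv_C_mul, map_mul, aeval_C, mulX, Derivation.leibniz, map_add, smul_eq_mul,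
      smul_eq_mul, map_mul, map_mul, hz0 i.2, zero_mul, add_zero, aeval_X]
    rfl
  -- a derivation over `L` which is zero on the coordinates of `y`
  have hkey : ∀ D : Derivation ℤ ℂ ℂ, Kills L D → (∀ m, D (y m) = 0) → ∀ m,
      ∑ i : Fin 4 × J, (y i.1 * aeval y (pderiv m (h i.2))) * D (a i) = 0 := by
    intro D hDL hDy m
    have hDP : ∀ m j, D (aeval y (pderiv m (h j))) = 0 := by
      intro m j
      rw [der_aeval ((hL j).pderiv m) hDL, dFc]
      exact Finset.sum_eq_zero fun i _ => by rw [hDy i, zero_mul]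
    have h1 := congrArg D (hrel m)
    rw [map_zero, map_sum] at h1
    rw [← h1]
    refine Finset.sum_congr rfl fun i _ => ?_
    rw [Derivation.leibniz, Derivation.leibniz, hDy, hDP]
    simp only [smul_eq_mul, mul_zero, add_zero, zero_add]
  by_cases hmin : ∃ j j' m m',
      aeval y (pderiv m (h j) * pderiv m' (h j') - pderiv m' (h j) * pderiv m (h j')) ≠ 0
  · obtain ⟨j, j', m₁, m₂, hmm⟩ := hmin
    rw [map_sub, map_mul, map_mul] at hmm
    have hjj : LinearIndependent ℂ
        ![fun m => aeval y (pderiv m (h j)), fun m => aeval y (pderiv m (h j'))] :=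
      pair_of_minor (m := m₁) (m' := m₂) hmm
    -- Euler
    have heul : ∀ j, ∑ m, aeval y (pderiv m (h j)) * y m = 0 := by
      intro j
      have h1 := congrArg (aeval y) (hh j).sum_X_mul_pderiv
      rw [map_sum, map_nsmul, hz0 j, smul_zero] at h1
      rw [← h1]
      refine Finset.sum_congr rfl fun m _ => ?_
      rw [map_mul, aeval_X, mul_comm]
    obtain ⟨D₁, hD₁L, hD₁⟩ := exists_kills' ha (fun i => if i = (l, j) then 1 else 0)
    obtain ⟨D₂, hD₂L, hD₂⟩ := exists_kills' ha (fun i => if i = (l, j') then 1 else 0)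
    have htan : ∀ D : Derivation ℤ ℂ ℂ, Kills L D → ∀ j,
        ∑ m, aeval y (pderiv m (h j)) * D (y m) = 0 := by
      intro D hD j
      have h1 := der_aeval (hL j) hD (z := y)
      rw [hz0 j, map_zero] at h1
      rw [h1]
      exact Finset.sum_congr rfl fun m _ => mul_comm _ _
    have hDl : ∀ D : Derivation ℤ ℂ ℂ, D (y l) = 0 := by
      intro D
      rw [hyl, Derivation.map_one_eq_zero]
    obtain ⟨s, t, hst, hne0⟩ := dep_of_ker hjj hyl (heul j) (heul j')
      (htan D₁ hD₁L j) (htan D₂ hD₂L j) (htan D₁ hD₁L j') (htan D₂ hD₂L j') (hDl D₁) (hDl D₂)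
    -- the combination
    let D : Derivation ℤ ℂ ℂ := s • D₁ + t • D₂
    have hDv : ∀ x, D x = s * D₁ x + t * D₂ x := fun x => rfl
    have hDL : Kills L D := fun x hx => by
      rw [hDv, hD₁L x hx, hD₂L x hx, mul_zero, mul_zero, add_zero]
    have hDy : ∀ m, D (y m) = 0 := fun m => congrFun hst m
    have hfin : ∀ m, s * aeval y (pderiv m (h j)) + t * aeval y (pderiv m (h j')) = 0 := by
      intro m
      have h1 := hkey D hDL hDy m
      have h2 : ∀ i : Fin 4 × J, (y i.1 * aeval y (pderiv m (h i.2))) * D (a i) =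
          (if i = (l, j) then s * (y i.1 * aeval y (pderiv m (h i.2))) else 0) +
            (if i = (l, j') then t * (y i.1 * aeval y (pderiv m (h i.2))) else 0) := by
        intro i
        rw [hDv, hD₁, hD₂]
        split_ifs <;> ring
      rw [Finset.sum_congr rfl fun i _ => h2 i, Finset.sum_add_distrib,
        Finset.sum_ite_eq' Finset.univ (l, j), Finset.sum_ite_eq' Finset.univ (l, j'),
        if_pos (Finset.mem_univ _), if_pos (Finset.mem_univ _)] at h1
      dsimp only at h1
      rw [hyl, one_mul, one_mul] at h1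
      exact h1
    exact hne0 (LinearIndependent.pair_iff.1 hjj s t (funext hfin))
  · push Not at hmin
    -- `y` is one of finitely many points, so it is over `clo L`
    have hover : Over (clo L) (Projectivization.mk ℂ y hyne) := by
      refine over_clo_of_finite L (hZ.two.subset ?_)
      rintro q ⟨σ, hσ, rfl⟩
      have hσy := map_ne_zero' σ hyne
      rw [act_mk σ y hyne hσy]
      refine ⟨fun j => ?_, fun j j' m m' => ?_⟩
      · rw [mem_zero_mk (hh j) hσy, aeval_fix (hL j) hσ, hz0 j, map_zero]
      · have e1 : (pderiv m (h j) * pderiv m' (h j') - pderiv m' (h j) *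
            pderiv m (h j')).IsHomogeneous (n - 1 + (n - 1)) :=
          ((hh j).pderiv.mul (hh j').pderiv).sub ((hh j).pderiv.mul (hh j').pderiv)
        rw [mem_zero_mk e1 hσy, map_sub, map_mul, map_mul, aeval_fix ((hL j).pderiv m) hσ,
          aeval_fix ((hL j').pderiv m') hσ, aeval_fix ((hL j).pderiv m') hσ,
          aeval_fix ((hL j').pderiv m) hσ]
        have h1 := hmin j j' m m'
        rw [map_sub, map_mul, map_mul] at h1
        have h2 := congrArg σ h1
        rwa [map_sub, map_mul, map_mul, map_zero] at h2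
    have hyclo := (over_mk hyne hyl).1 hover
    obtain ⟨j, m, hjm⟩ := hZ.one y hyne hz0
    obtain ⟨D, hDL, hD⟩ := exists_kills' ha (fun i => if i = (l, j) then 1 else 0)
    have hDc := kills_clo' hDL
    have h1 := hkey D hDL (fun m => hDc _ (hyclo m)) m
    have h2 : ∀ i : Fin 4 × J, (y i.1 * aeval y (pderiv m (h i.2))) * D (a i) =
        if i = (l, j) then y i.1 * aeval y (pderiv m (h i.2)) else 0 := by
      intro i
      rw [hD]
      split_ifs <;> ring
    rw [Finset.sum_congr rfl fun i _ => h2 i, Finset.sum_ite_eq' Finset.univ (l, j),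
      if_pos (Finset.mem_univ _)] at h1
    dsimp only at h1
    rw [hyl, one_mul] at h1
    exact hjm h1

private theorem pair_of_rank {ι : Type} (v : ι → Fin 4 → ℂ)
    (h : 2 ≤ Module.finrank ℂ (Submodule.span ℂ (Set.range v))) :
    ∃ j j' m m', v j m * v j' m' - v j m' * v j' m ≠ 0 := by
  by_contra hcon
  push Not at hcon
  by_cases h0 : ∀ j m, v j m = 0
  · have h1 : Submodule.span ℂ (Set.range v) = ⊥ := by
      rw [Submodule.span_eq_bot]
      rintro _ ⟨j, rfl⟩
      exact funext (h0 j)
    rw [h1, finrank_bot] at h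
    omega
  · push Not at h0
    obtain ⟨j, m, hjm⟩ := h0
    have h1 : Submodule.span ℂ (Set.range v) ≤ Submodule.span ℂ {v j} := by
      rw [Submodule.span_le]
      rintro _ ⟨j', rfl⟩
      rw [SetLike.mem_coe, Submodule.mem_span_singleton]
      refine ⟨v j' m / v j m, funext fun m' => ?_⟩
      have h2 := hcon j j' m m'
      rw [Pi.smul_apply, smul_eq_mul, div_mul_eq_mul_div, div_eq_iff hjm]
      linear_combination -h2
    have h2 := Submodule.finrank_mono h1
    rw [finrank_span_singleton (fun h3 => hjm (by rw [h3]; rfl))] at h2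
    omega

/-- `F = ∑ a_ij x_i h_j` is smooth if the differentials of the `h j` span at least two dimensions
at the common zeros -/
theorem smoothZ {r e : ℕ} (h : Fin r → MvPolynomial (Fin 4) ℂ) (hh : ∀ j, (h j).IsHomogeneous e)
    (hrk : ∀ z : Fin 4 → ℂ, z ≠ 0 → (∀ j, aeval z (h j) = 0) →
      2 ≤ Module.finrank ℂ (Submodule.span ℂ (Set.range fun j => fun l : Fin 4 =>
        aeval z (pderiv l (h j)))))
    {L : Fl} [Countable L] (hgL : ∀ i, Coef L (mulX h i)) {a : Fin 4 × Fin r → ℂ}
    (ha : AlgebraicIndependent L a) : IsSmoothForm (∑ i, C (a i) * mulX h i) (e + 1) := by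
  have hP : ∀ z : Fin 4 → ℂ, z ≠ 0 → (∀ j, aeval z (h j) = 0) → ∃ j j' m m',
      aeval z (pderiv m (h j)) * aeval z (pderiv m' (h j')) -
        aeval z (pderiv m' (h j)) * aeval z (pderiv m (h j')) ≠ 0 := fun z hz hz0 =>
    pair_of_rank (fun j l => aeval z (pderiv l (h j))) (hrk z hz hz0)
  refine smoothP hh (coef_of_mulX hgL) ⟨fun z hz hz0 => ?_, ?_⟩ ha
  · obtain ⟨j, j', m, m', hne⟩ := hP z hz hz0
    by_contra hcon
    push Not at hcon
    rw [hcon j m, hcon j m', zero_mul, zero_mul, sub_zero] at hne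
    exact hne rfl
  · convert Set.finite_empty
    rw [Set.eq_empty_iff_forall_notMem]
    rintro q ⟨hq0, hq1⟩
    obtain ⟨j, j', m, m', hne⟩ := hP q.rep q.rep_nonzero hq0
    have h1 := hq1 j j' m m'
    rw [map_sub, map_mul, map_mul] at h1
    exact hne h1

/-- the fibres of the map defined by the `x_i h_j` off the common zeros are points -/
theorem sepZ (h : J → MvPolynomial (Fin 4) ℂ) (n : ℕ) {z : Fin 4 → ℂ} (hz : z ≠ 0)
    (hzh : ∃ j, aeval z (h j) ≠ 0) : Sep (mulX h) n z := by
  obtain ⟨j₀, hzj⟩ := hzh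
  have hev : ∀ (v : Fin 4 → ℂ) (p : Fin 4 × J),
      aeval v (mulX h p) = v p.1 * aeval v (h p.2) := by
    intro v p
    rw [mulX, map_mul, aeval_X]
  obtain ⟨l, hl⟩ : ∃ l, z l ≠ 0 := by
    by_contra hall
    push Not at hall
    exact hz (funext hall)
  have key : ∀ q ∈ Fib (mulX h) z, ∃ c : ℂ, c ≠ 0 ∧ ∀ i, q.rep i = c * z i := by
    rintro q ⟨hb, hqz⟩
    obtain ⟨i₁, hi₁⟩ : ∃ i, aeval q.rep (mulX h i) ≠ 0 := by
      first
        | exact hb
        | (by_contra hno
           push Not at hno
           exact hb hno)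
    rw [hev] at hi₁
    have hqj : aeval q.rep (h j₀) ≠ 0 := by
      intro h0
      have h1 := hqz i₁ (l, j₀)
      rw [hev, hev, hev, hev] at h1
      dsimp only at h1
      rw [h0, mul_zero, zero_mul] at h1
      exact (mul_ne_zero hi₁ (mul_ne_zero hl hzj)) h1
    have hprop : ∀ i, q.rep i * z l = q.rep l * z i := by
      intro i
      have h1 := hqz (i, j₀) (l, j₀)
      rw [hev, hev, hev, hev] at h1
      dsimp only at h1
      apply mul_left_cancel₀ (mul_ne_zero hqj hzj)
      linear_combination h1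
    have hql : q.rep l ≠ 0 := by
      intro h0
      have h1 := hprop i₁.1
      rw [h0, zero_mul] at h1
      rcases mul_eq_zero.1 h1 with h2 | h2
      · exact hi₁ (by rw [h2, zero_mul])
      · exact hl h2
    refine ⟨q.rep l / z l, div_ne_zero hql hl, fun i => ?_⟩
    rw [div_mul_eq_mul_div, eq_div_iff hl]
    exact hprop i
  have heq : ∀ q ∈ Fib (mulX h) z, q = Projectivization.mk ℂ z hz := by
    intro q hq
    obtain ⟨c, hc, hcz⟩ := key q hq
    rw [← Projectivization.mk_rep q, Projectivization.mk_eq_mk_iff']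
    exact ⟨c, funext fun i => (hcz i).symm⟩
  intro q hq
  obtain ⟨c, hc, hcz⟩ := key q hq
  refine ⟨X l ^ n, isHomogeneous_X_pow l n, ?_, fun q' hq' hne => absurd ?_ hne⟩
  · rw [map_pow, aeval_X, hcz l]
    exact pow_ne_zero _ (mul_ne_zero hc hl)
  · rw [heq q hq, heq q' hq']

end Pool.Agent.VGS.W
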