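import Pool.Agent.VGV.Defs

/-! Module ZInd: cycles supported in the base locus, induction over the letters. -/

set_option autoImplicit false

open scoped LinearAlgebra.Projectivization
open MvPolynomial

namespace Pool.Agent.VGS.W

open Pool.Agent.LowDeg (surf IsSmoothForm)

/-- cycles stable under `Fix L`, supported in `B`, over `clo L` -/
private def zi_st (L : Fl) (B : Set PP) : Submodule ℚ Cy where
  carrier := {y | (∀ σ ∈ Fix L, actC σ y = y) ∧ ∀ q ∈ y.support, q ∈ B ∧ Over (clo L) q}
  zero_mem' := ⟨fun σ _ => map_zero _, fun q hq => by simp at hq⟩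
  add_mem' := by
    classical
    rintro y y' ⟨h1, h2⟩ ⟨h3, h4⟩
    refine ⟨fun σ hσ => by rw [map_add, h1 σ hσ, h3 σ hσ], fun q hq => ?_⟩
    rcases Finset.mem_union.1 (Finsupp.support_add hq) with h | h
    · exact h2 q h
    · exact h4 q h
  smul_mem' := by
    rintro c y ⟨h1, h2⟩
    exact ⟨fun σ hσ => by rw [map_smul, h1 σ hσ], fun q hq => h2 q (Finsupp.support_smul hq)⟩

private theorem zi_tr {ι : Type} {k : Fl} {x : ι → ℂ} (hx : AlgebraicIndependent k x) {J : Set ι}
    {i : ι} (hi : i ∉ J) : Transcendental (adj k (x '' J)) (x i) := by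
  have h1 := hx.transcendental_adjoin (s := J) (i := i) hi
  have h2 : x i ∉ clo (adj k (x '' J)) := by
    rw [mem_clo_adj]
    exact h1
  intro h3
  exact h2 (mem_clo.2 h3)

/-- induction over the letters: `hstep` is the statement for one letter -/
theorem zind_of_step {ι : Type} [Fintype ι] {k E : Fl} {F : MvPolynomial (Fin 4) ℂ} {B : Set PP}
    {x : ι → ℂ} (hx : AlgebraicIndependent k x) (hE : E = adj k (Set.range x))
    (hstep : ∀ (L : Fl) (t : ℂ), Countable L → k ≤ L → adj L {t} ≤ E → Transcendental L t →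
      ∀ q ∈ B, Over (clo (adj L {t})) q → ∃ (n : ℕ) (y : Cy), 0 < n ∧
        (∀ σ ∈ Fix L, actC σ y = y) ∧ (∀ q' ∈ y.support, q' ∈ B ∧ Over (clo L) q') ∧
        (n : ℚ) • Orb (adj L {t}) q - y ∈ ratQ F)
    [Countable k] {y : Cy} (hst : ∀ σ ∈ Fix E, actC σ y = y)
    (hy : ∀ q ∈ y.support, q ∈ B ∧ Over (clo E) q) :
    ∃ y₀ : Cy, (∀ σ ∈ Fix k, actC σ y₀ = y₀) ∧ (∀ q ∈ y₀.support, q ∈ B ∧ Over (clo k) q) ∧
      y - y₀ ∈ ratQ F := by
  classical
  let W : Submodule ℚ Cy := ratQ F ⊔ zi_st k B
  have hN : ratQ F ≤ W := le_sup_left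
  have hmain : ∀ J : Finset ι, ∀ y : Cy, y ∈ zi_st (adj k (x '' (J : Set ι))) B → y ∈ W := by
    intro J
    induction J using Finset.induction_on with
    | empty =>
      intro y hy
      have h1 : adj k (x '' ((∅ : Finset ι) : Set ι)) = k := by
        refine le_antisymm (adj_le le_rfl ?_) (le_adj _ _)
        rintro z ⟨i, hi, -⟩
        simp at hi
      rw [h1] at hy
      exact (le_sup_right : zi_st k B ≤ W) hy
    | insert i J hi ih =>
      intro y hy
      have h1 : adj (adj k (x '' (J : Set ι))) {x i} = adj k (x '' ((insert i J : Finset ι) : Set ι)) := by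
        rw [adj_adj]
        congr 1
        rw [Finset.coe_insert, Set.image_insert_eq, Set.union_singleton]
      rw [← h1] at hy
      have hc : Countable (adj k (x '' (J : Set ι))) := by
        have : Countable (x '' (J : Set ι)) := (Set.toFinite _).countable.to_subtype
        exact countable_adj _ _
      have hle : adj (adj k (x '' (J : Set ι))) {x i} ≤ E := by
        rw [h1, hE]
        exact adj_le (le_adj _ _) ((Set.image_subset_range _ _).trans (subset_adj _ _))
      have htr : Transcendental (adj k (x '' (J : Set ι))) (x i) :=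
        zi_tr hx (fun h => hi (Finset.mem_coe.1 h))
      refine (Submodule.span_le.2 ?_) (mem_span_orb _ y hy.1 (fun q hq => (hy.2 q hq).2))
      rintro w ⟨q, hq, rfl⟩
      obtain ⟨n, y', hn, h2, h3, h4⟩ := hstep _ _ hc (le_adj _ _) hle htr q (hy.2 q hq).1
        (hy.2 q hq).2
      have h5 : y' ∈ W := ih y' ⟨h2, h3⟩
      have h6 : (n : ℚ) • Orb (adj (adj k (x '' (J : Set ι))) {x i}) q ∈ W := by
        have := W.add_mem (hN h4) h5
        rwa [sub_add_cancel] at this
      have h7 := W.smul_mem ((n : ℚ)⁻¹) h6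
      rwa [smul_smul, inv_mul_cancel₀ (by exact_mod_cast hn.ne'), one_smul] at h7
  have h1 : y ∈ W := by
    refine hmain Finset.univ y ?_
    rw [Finset.coe_univ, Set.image_univ, ← hE]
    exact ⟨hst, hy⟩
  obtain ⟨n, hn, y₀, hy₀, h2⟩ := Submodule.mem_sup.1 h1
  refine ⟨y₀, hy₀.1, hy₀.2, ?_⟩
  rw [← h2, add_sub_cancel_right]
  exact hn

end Pool.Agent.VGS.W
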