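import Pool.Agent.VGV.Defs
import Pool.Agent.VGS.Dil7

/-! Module ZStep: one letter less for the cycles supported in the base locus. -/

set_option autoImplicit false

open scoped LinearAlgebra.Projectivization
open MvPolynomial

namespace Pool.Agent.VGS.W

open Pool.Agent.LowDeg (surf)

/-- an algebraic tuple is conjugate to every tuple which satisfies its relations -/
theorem conj_of_inD (L : Fl) [Countable L] {z w : Fin 4 → ℂ} (hz : ∀ i, z i ∈ clo L)
    (h : InD L z w) : ∃ σ ∈ Fix L, ∀ i, σ (z i) = w i := by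
  refine exists_fix L z w fun P hP => ⟨h P hP, fun hw => ?_⟩
  by_contra h0
  have hx : aeval z P ∈ clo L := aeval_mem (fun m => le_clo _ (hP m)) hz
  rw [mem_clo] at hx
  obtain ⟨R, hR0, hR⟩ := hx.exists_nonzero_coeff_and_aeval_eq_zero
    (mem_nonZeroDivisors_of_ne_zero h0)
  obtain ⟨f, hf⟩ := coef_iff.1 hP
  have key : ∀ y : Fin 4 → ℂ, aeval y P = aeval y f := by
    intro y
    rw [← hf]
    simp [aeval_def, eval₂_map]
  have h1 := (inD_iff.1 h) (Polynomial.aeval f R) (by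
    rw [← Polynomial.aeval_algHom_apply, ← key]
    exact hR)
  rw [← Polynomial.aeval_algHom_apply, ← key, hw, ← Polynomial.coeff_zero_eq_aeval_zero',
    map_eq_zero] at h1
  exact hR0 h1

private theorem zs_map {L : Fl} {θ : ℂ ≃+* ℂ} (hθ : θ ∈ Fix L) {t u : ℂ} (h : θ t = u) {x : ℂ}
    (hx : x ∈ adj L {t}) : θ x ∈ adj L {u} := by
  let M : Fl :=
    { carrier := {x | θ x ∈ adj L {u}}
      mul_mem' := fun {a b} ha hb => by
        change θ (a * b) ∈ adj L {u}
        rw [map_mul]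
        exact mul_mem ha hb
      one_mem' := by
        change θ 1 ∈ adj L {u}
        rw [map_one]
        exact one_mem _
      add_mem' := fun {a b} ha hb => by
        change θ (a + b) ∈ adj L {u}
        rw [map_add]
        exact add_mem ha hb
      zero_mem' := by
        change θ 0 ∈ adj L {u}
        rw [map_zero]
        exact zero_mem _
      algebraMap_mem' := fun r => by
        change θ (algebraMap ℚ ℂ r) ∈ adj L {u}
        rw [show θ (algebraMap ℚ ℂ r) = algebraMap ℚ ℂ r by simp]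
        exact (adj L {u}).algebraMap_mem r
      inv_mem' := fun a ha => by
        change θ a⁻¹ ∈ adj L {u}
        rw [map_inv₀]
        exact inv_mem ha }
  have h3 : adj L {t} ≤ M := adj_le (fun y hy => by
    change θ y ∈ adj L {u}
    rw [hθ y hy]
    exact le_adj _ _ hy) (by
    intro y hy
    rw [Set.mem_singleton_iff] at hy
    subst hy
    change θ y ∈ adj L {u}
    rw [h]
    exact subset_adj _ _ rfl)
  exact h3 hx

private theorem zs_mapc {L : Fl} {θ : ℂ ≃+* ℂ} (hθ : θ ∈ Fix L) {t u : ℂ} (h : θ t = u) {x : ℂ}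
    (hx : x ∈ clo (adj L {t})) : θ x ∈ clo (adj L {u}) := by
  rw [mem_clo_iff_exists] at hx ⊢
  obtain ⟨p, hp0, hL, hp⟩ := hx
  refine ⟨p.map (θ : ℂ →+* ℂ), ?_, fun n => ?_, ?_⟩
  · rw [Ne, Polynomial.map_eq_zero]
    exact hp0
  · rw [Polynomial.coeff_map]
    exact zs_map hθ h (hL n)
  · rw [Polynomial.eval_map]
    have h1 := Polynomial.eval₂_at_apply (p := p) (θ : ℂ →+* ℂ) x
    rw [hp, map_zero] at h1
    exact h1

private theorem zs_sp {V : ValuationSubring ℂ} {C : Fl} (hV : IsPl V C) {L : Fl} (hL : L ≤ C)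
    {θ : ℂ ≃+* ℂ} (hθ : θ ∈ Fix L) {t : ℂ} (h : Sp V C (θ t) t) {x : ℂ} (hx : x ∈ adj L {t}) :
    Sp V C (θ x) x := by
  let M : Fl :=
    { carrier := {x | Sp V C (θ x) x}
      mul_mem' := fun {a b} ha hb => by
        change Sp V C (θ (a * b)) (a * b)
        rw [map_mul]
        exact Sp.mul hV ha hb
      one_mem' := by
        change Sp V C (θ 1) 1
        rw [map_one]
        exact Sp.const hV (one_mem _)
      add_mem' := fun {a b} ha hb => by
        change Sp V C (θ (a + b)) (a + b)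
        rw [map_add]
        exact Sp.add hV ha hb
      zero_mem' := by
        change Sp V C (θ 0) 0
        rw [map_zero]
        exact Sp.const hV (zero_mem _)
      algebraMap_mem' := fun r => by
        change Sp V C (θ (algebraMap ℚ ℂ r)) (algebraMap ℚ ℂ r)
        rw [show θ (algebraMap ℚ ℂ r) = algebraMap ℚ ℂ r by simp]
        exact Sp.const hV (C.algebraMap_mem r)
      inv_mem' := fun a ha => by
        change Sp V C (θ a⁻¹) a⁻¹
        rw [map_inv₀]
        by_cases h0 : a = 0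
        · rw [h0, map_zero, inv_zero]
          exact Sp.const hV (zero_mem _)
        · exact Sp.inv hV ha h0 }
  have h3 : adj L {t} ≤ M := adj_le (fun y hy => by
    change Sp V C (θ y) y
    rw [hθ y hy]
    exact Sp.const hV (hL hy)) (by
    intro y hy
    rw [Set.mem_singleton_iff] at hy
    subst hy
    exact h)
  exact h3 hx

private theorem zs_inD {V : ValuationSubring ℂ} {C : Fl} (hV : IsPl V C) {L : Fl} (hL : L ≤ C)
    {θ : ℂ ≃+* ℂ} (hθ : θ ∈ Fix L) {t : ℂ} (h : Sp V C (θ t) t) {z w : Fin 4 → ℂ}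
    (hw : ∀ i, Sp V C (θ (z i)) (w i)) : InD (adj L {t}) z w := by
  intro f hf h0
  have h1 : Sp V C (θ (aeval z f)) (aeval w f) := by
    rw [aeval_def, aeval_def, eval₂_eq', eval₂_eq', map_sum]
    refine Sp.sum hV _ fun m _ => ?_
    rw [map_mul, map_prod]
    refine Sp.mul hV (zs_sp hV hL hθ h (hf m)) (Sp.prod hV _ fun i _ => ?_)
    rw [map_pow]
    exact Sp.pow hV (hw i) _
  rw [h0, map_zero] at h1
  exact Sp.unique hV h1 (Sp.const hV (zero_mem _))

/-- the limit at `θ t → t` is conjugate to the point -/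
private theorem zs_lim {V : ValuationSubring ℂ} {L : Fl} [Countable L] {t : ℂ}
    (hV : IsPl V (clo (adj L {t}))) {θ : ℂ ≃+* ℂ} (hθ : θ ∈ Fix L)
    (h : Sp V (clo (adj L {t})) (θ t) t) {q q₁ : PP} (hq : Over (clo (adj L {t})) q)
    (h1 : SpP V (clo (adj L {t})) (act θ q) q₁) : ∃ τ ∈ Fix (adj L {t}), act τ q = q₁ := by
  have hL : L ≤ clo (adj L {t}) := (le_adj _ _).trans (le_clo _)
  obtain ⟨z', w', hz', hw', h2, rfl, h3⟩ := h1
  obtain ⟨l, hl⟩ := Function.ne_iff.1 hw'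
  have hl' : w' l ≠ 0 := hl
  have hzl : z' l ≠ 0 := Sp.ne_zero hV (h3 l) hl'
  set z : Fin 4 → ℂ := fun i => θ.symm (z' i / z' l) with hzd
  have hθz : ∀ i, θ (z i) = z' i / z' l := fun i => by
    rw [hzd]
    exact θ.apply_symm_apply _
  have hz1 : z l = 1 := by
    rw [hzd]
    change θ.symm (z' l / z' l) = 1
    rw [div_self hzl, map_one]
  have hz : z ≠ 0 := by
    intro h0
    rw [h0] at hz1
    exact zero_ne_one hz1
  have hqz : q = Projectivization.mk ℂ z hz := by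
    apply act_injective θ
    rw [h2, act_mk θ z hz (map_ne_zero' θ hz)]
    refine mk_eq_mk_of_mul _ _ (a := z' l) fun i => ?_
    rw [hθz]
    field_simp
  have hzC : ∀ i, z i ∈ clo (adj L {t}) := by
    rw [hqz, over_mk hz hz1] at hq
    exact hq
  have hD : InD (adj L {t}) z (fun i => w' i / w' l) := by
    refine zs_inD hV hL hθ h fun i => ?_
    rw [hθz]
    exact Sp.div hV (h3 i) (h3 l) hl'
  obtain ⟨τ, hτ, h4⟩ := conj_of_inD (adj L {t}) hzC hD
  refine ⟨τ, hτ, ?_⟩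
  rw [hqz, act_mk τ z hz (map_ne_zero' τ hz)]
  refine mk_eq_mk_of_mul _ _ (a := (w' l)⁻¹) fun i => ?_
  rw [h4]
  field_simp

/-- **One letter less**: a point `q` of the base locus of the forms `g i` over `clo (L(t))`; the
sum of its conjugates over `L(t)` moves, on `F = 0`, to a cycle of the base locus over `clo L`
which is stable over `L`. -/
theorem zstep {ι : Type} {g : ι → MvPolynomial (Fin 4) ℂ} {e : ℕ}
    (hg : ∀ i, (g i).IsHomogeneous e) (L M : Fl) [Countable L] [Countable M]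
    (hgL : ∀ i, Coef L (g i)) {t : ℂ} (ht : t ∉ clo L) (hLM : adj L {t} ≤ M)
    {F : MvPolynomial (Fin 4) ℂ} {d : ℕ} (hF : F.IsHomogeneous d) (hFM : Coef M F)
    (hgF : ∀ q : PP, (∀ i, aeval q.rep (g i) = 0) → q ∈ surf F) {q : PP}
    (hqZ : ∀ i, aeval q.rep (g i) = 0) (hq : Over (clo (adj L {t})) q) :
    ∃ (n : ℕ) (y : Cy), 0 < n ∧ (∀ σ ∈ Fix L, actC σ y = y) ∧
      (∀ q' ∈ y.support, (∀ i, aeval q'.rep (g i) = 0) ∧ Over (clo L) q') ∧
      (n : ℚ) • Orb (adj L {t}) q - y ∈ ratQ F := by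
  classical
  have hL : L ≤ M := (le_adj _ _).trans hLM
  have htM : t ∈ M := hLM (subset_adj _ _ rfl)
  have ht0 : t ≠ 0 := by
    rintro rfl
    exact ht (zero_mem _)
  obtain ⟨v, hv⟩ := exists_notMem (clo M)
  have hu : t * v ∉ clo M := by
    intro h
    apply hv
    have h1 : v = t * v / t := by
      rw [mul_comm, mul_div_assoc, div_self ht0, mul_one]
    rw [h1]
    exact (clo M).div_mem h (le_clo _ htM)
  have huL : t * v ∉ clo L := fun h => hu (clo_mono hL h)
  have hu₂ : t * v ∉ clo (adj L {t}) := fun h => hu (clo_mono hLM h)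
  obtain ⟨θ, hθ, hθt⟩ := exists_fix_tr L ht huL
  generalize hudef : t * v = u at *
  have hs : Over (clo (adj L {u})) (act θ q) := by
    obtain ⟨z, hz, i, h1, rfl⟩ := exists_nrm q
    rw [act_mk θ z hz (map_ne_zero' θ hz),
      over_mk (i := i) (map_ne_zero' θ hz) (by rw [h1, map_one])]
    rw [over_mk hz h1] at hq
    exact fun j => zs_mapc hθ hθt (hq j)
  -- the family
  have hfin := finite_orbit_pt (adj L {u}) hs
  obtain ⟨T, hTnd, hTmem⟩ : ∃ T : Multiset PP, T.Nodup ∧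
      ∀ q', q' ∈ T ↔ ∃ σ ∈ Fix (adj L {u}), act σ (act θ q) = q' := by
    refine ⟨hfin.toFinset.val, hfin.toFinset.nodup, fun q' => ?_⟩
    rw [Finset.mem_val, Set.Finite.mem_toFinset]
    rfl
  have hT : ∀ (M' : Fl) (u' : ℂ), adj L {u} ≤ adj M' {u'} → IsFam M' u' T := by
    intro M' u' hM'
    refine ⟨fun q' hq' => ?_, fun σ hσ' => ?_⟩
    · obtain ⟨σ, hσ, rfl⟩ := (hTmem q').1 hq'
      exact ((over_clo_act hσ).2 hs).mono (clo_mono hM')
    · have hσ : σ ∈ Fix (adj L {u}) := Fix_mono hM' hσ'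
      refine (Multiset.Nodup.ext (hTnd.map (act_injective σ)) hTnd).2 fun q' => ?_
      rw [Multiset.mem_map]
      constructor
      · rintro ⟨q₂, hq₂, rfl⟩
        obtain ⟨τ, hτ, rfl⟩ := (hTmem q₂).1 hq₂
        exact (hTmem _).2 ⟨σ * τ, (Fix _).mul_mem hσ hτ, by rw [act_mul]⟩
      · intro hq₂
        obtain ⟨τ, hτ, rfl⟩ := (hTmem q').1 hq₂
        refine ⟨act (σ⁻¹ * τ) (act θ q), (hTmem _).2
          ⟨_, (Fix _).mul_mem ((Fix _).inv_mem hσ) hτ, rfl⟩, ?_⟩
        rw [← act_mul, mul_inv_cancel_left]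
  have hsT : act θ q ∈ T := (hTmem _).2 ⟨1, (Fix _).one_mem, act_one _⟩
  have huv : adj L {u} ≤ adj M {v} := by
    refine adj_le (hL.trans (le_adj _ _)) ?_
    intro x hx
    rw [Set.mem_singleton_iff] at hx
    rw [hx, ← hudef]
    exact mul_mem (le_adj _ _ htM) (subset_adj _ _ rfl)
  have hTM : IsFam M v T := hT M v huv
  have hTL : IsFam L u T := hT L u le_rfl
  have hT₂ : IsFam (adj L {t}) u T := hT _ _ (adj_le ((le_adj _ _).trans (le_adj _ _))
    (subset_adj _ _))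
  -- its members are base points
  have hTZ : ∀ q' ∈ T, ∀ i, aeval q'.rep (g i) = 0 := by
    intro q' hq' i
    obtain ⟨σ, hσ, rfl⟩ := (hTmem q').1 hq'
    rw [aeval_act_rep (hg i) (hgL i) (Fix_mono (le_adj _ _) hσ),
      aeval_act_rep (hg i) (hgL i) hθ]
    exact hqZ i
  have hTF : ∀ q' ∈ T, q' ∈ surf F := fun q' hq' => hgF q' (hTZ q' hq')
  -- the places
  obtain ⟨V₀, hV₀, hv₀⟩ := exists_place (clo_clo M) hv (zero_mem (clo M))
  obtain ⟨V₁, hV₁, hv₁⟩ := exists_place (clo_clo M) hv (one_mem (clo M))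
  have hV₀L : IsPl V₀ (clo L) := fun c hc => hV₀ c (clo_mono hL hc)
  have hV₁L : IsPl V₁ (clo (adj L {t})) := fun c hc => hV₁ c (clo_mono hLM hc)
  have hu₀ : Sp V₀ (clo L) u 0 := by
    have h1 := Sp.mul hV₀ (Sp.const hV₀ (le_clo _ htM)) hv₀
    rw [mul_zero, hudef] at h1
    exact ⟨zero_mem _, h1.2⟩
  have hu₁ : Sp V₁ (clo (adj L {t})) u t := by
    have h1 := Sp.mul hV₁ (Sp.const hV₁ (le_clo _ htM)) hv₁
    rw [mul_one, hudef] at h1
    exact ⟨le_clo _ (subset_adj _ _ rfl), h1.2⟩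
  -- limits
  have hex₀ : ∀ q' ∈ T, ∃ q₂, SpP V₀ (clo L) q' q₂ := fun q' hq' =>
    exists_spP (clo_clo L) hV₀L huL hu₀ ((hTL.isOver q' hq').mono (clo_mono
      (adj_le ((le_clo L).trans (le_adj _ _)) (subset_adj _ _))))
  have hex₁ : ∀ q' ∈ T, ∃ q₂, SpP V₁ (clo (adj L {t})) q' q₂ := fun q' hq' =>
    exists_spP (clo_clo _) hV₁L hu₂ hu₁ ((hT₂.isOver q' hq').mono (clo_mono
      (adj_le ((le_clo _).trans (le_adj _ _)) (subset_adj _ _))))
  choose! f hf using hex₀
  choose! f' hf' using hex₁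
  have hfM : ∀ q' ∈ T, SpP V₀ (clo M) q' (f q') := by
    intro q' hq'
    obtain ⟨z, w, hz, hw, h1, h2, h3⟩ := hf q' hq'
    exact ⟨z, w, hz, hw, h1, h2, fun i => ⟨clo_mono hL (h3 i).1, (h3 i).2⟩⟩
  have hfM' : ∀ q' ∈ T, SpP V₁ (clo M) q' (f' q') := by
    intro q' hq'
    obtain ⟨z, w, hz, hw, h1, h2, h3⟩ := hf' q' hq'
    exact ⟨z, w, hz, hw, h1, h2, fun i => ⟨clo_mono hLM (h3 i).1, (h3 i).2⟩⟩
  have hlink : cycQ (T.map f) - cycQ (T.map f') ∈ ratQ F :=
    link_ms hv hTM hF hFM hTF hV₀ hV₁ hv₀ hv₁ hfM hfM'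
  have hst₀ : ∀ σ ∈ Fix L, actC σ (cycQ (T.map f)) = cycQ (T.map f) := fun σ hσ => by
    rw [actC_cycQ, stable_ms huL hTL (zero_mem L) hV₀L hu₀ hf hσ]
  have hst₁ : ∀ σ ∈ Fix (adj L {t}), actC σ (cycQ (T.map f')) = cycQ (T.map f') :=
    fun σ hσ => by
      rw [actC_cycQ, stable_ms hu₂ hT₂ (subset_adj _ _ rfl) hV₁L hu₁ hf' hσ]
  -- the limits at `u = t` are conjugates of `q`
  have horb : ∀ q' ∈ T, ∃ τ ∈ Fix (adj L {t}), act τ q = f' q' := by
    intro q' hq'
    have h1 := hf' q' hq'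
    obtain ⟨σ, hσ, rfl⟩ := (hTmem q').1 hq'
    have hσL : σ ∈ Fix L := Fix_mono (le_adj _ _) hσ
    refine zs_lim hV₁L (θ := σ * θ) ((Fix L).mul_mem hσL hθ) ?_ hq (by rw [act_mul]; exact h1)
    have h2 : (σ * θ) t = u := by
      change σ (θ t) = u
      rw [hθt]
      exact hσ u (subset_adj _ _ rfl)
    rw [h2]
    exact hu₁
  have hcount : ∀ σ ∈ Fix (adj L {t}),
      cycQ (T.map f') (act σ q) = ((T.map f').count q : ℚ) := by
    intro σ hσ
    rw [← hst₁ σ hσ, actC_apply, act_inv_act, cycQ_apply]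
  have hn : 0 < (T.map f').count q := by
    obtain ⟨τ, hτ, h1⟩ := horb _ hsT
    have h2 : 0 < (T.map f').count (act τ q) := by
      rw [Multiset.count_pos, h1]
      exact Multiset.mem_map_of_mem _ hsT
    have h3 := hcount τ hτ
    rw [cycQ_apply] at h3
    have h4 : (T.map f').count (act τ q) = (T.map f').count q := by exact_mod_cast h3
    rwa [h4] at h2
  have hkey : cycQ (T.map f') = (((T.map f').count q : ℕ) : ℚ) • Orb (adj L {t}) q := by
    ext q₁
    rw [Finsupp.smul_apply, smul_eq_mul]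
    unfold Orb
    rw [asm_sumSet_apply (finite_orbit_pt (adj L {t}) hq)]
    by_cases hO : q₁ ∈ {q' | ∃ σ ∈ Fix (adj L {t}), act σ q = q'}
    · rw [if_pos hO, mul_one]
      obtain ⟨σ, hσ, rfl⟩ := hO
      exact hcount σ hσ
    · rw [if_neg hO, mul_zero, cycQ_apply, Multiset.count_eq_zero_of_notMem]
      · simp
      · intro h1
        obtain ⟨q', hq', rfl⟩ := Multiset.mem_map.1 h1
        exact hO (horb q' hq')
  refine ⟨(T.map f').count q, cycQ (T.map f), hn, hst₀, ?_, ?_⟩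
  · intro q₁ hq₁
    have h1 : q₁ ∈ T.map f := by
      by_contra h2
      have h3 := Finsupp.mem_support_iff.1 hq₁
      rw [cycQ_apply, Multiset.count_eq_zero_of_notMem h2] at h3
      exact h3 (by simp)
    obtain ⟨q', hq', rfl⟩ := Multiset.mem_map.1 h1
    exact ⟨fun i => SpP.zero hV₀L (hg i) ((hgL i).mono (le_clo _)) (hf q' hq') (hTZ q' hq' i),
      (hf q' hq').over⟩
  · rw [← hkey, ← neg_sub]
    exact (ratQ F).neg_mem hlink

end Pool.Agent.VGS.W
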